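import Mathlib

/-!
# Calculus of vector fields on an open set
-/

namespace Pool.Agent.H77.PF

open Set
open scoped ContDiff

variable {E F G : Type*} [NormedAddCommGroup E] [NormedSpace ℝ E] [NormedAddCommGroup F]
  [NormedSpace ℝ F] [NormedAddCommGroup G] [NormedSpace ℝ G]

/-- derivative of `f` along the vector field `X` -/
noncomputable def Dv (X : E → E) (f : E → F) (y : E) : F := fderiv ℝ f y (X y)

lemma inf_add_one : (∞ : WithTop ℕ∞) + 1 ≤ ∞ := by
  exact le_rfl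

section
variable {U : Set E} (hU : IsOpen U)
include hU

lemma smooth_at {f : E → F} (hf : ContDiffOn ℝ ∞ f U) {y : E} (hy : y ∈ U) :
    ContDiffAt ℝ ∞ f y := hf.contDiffAt (hU.mem_nhds hy)

lemma diff_at {f : E → F} (hf : ContDiffOn ℝ ∞ f U) {y : E} (hy : y ∈ U) :
    DifferentiableAt ℝ f y := (smooth_at hU hf hy).differentiableAt (by simp)

lemma smooth_fderiv {f : E → F} (hf : ContDiffOn ℝ ∞ f U) : ContDiffOn ℝ ∞ (fderiv ℝ f) U :=
  hf.fderiv_of_isOpen hU inf_add_one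

lemma smooth_Dv {X : E → E} {f : E → F} (hX : ContDiffOn ℝ ∞ X U) (hf : ContDiffOn ℝ ∞ f U) :
    ContDiffOn ℝ ∞ (Dv X f) U :=
  (smooth_fderiv hU hf).clm_apply hX

lemma Dv_congr {X : E → E} {f g : E → F} (h : EqOn f g U) {y : E} (hy : y ∈ U) :
    Dv X f y = Dv X g y := by
  unfold Dv
  rw [Filter.EventuallyEq.fderiv_eq (h.eventuallyEq_of_mem (hU.mem_nhds hy))]

/-- the derivative along a line -/
lemma hasLine {X : E → E} {f : E → F} (hf : ContDiffOn ℝ ∞ f U) {y : E} (hy : y ∈ U) :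
    HasLineDerivAt ℝ f (Dv X f y) y (X y) :=
  (diff_at hU hf hy).hasFDerivAt.hasLineDerivAt (X y)

lemma Dv_eq_of_hasLine {X : E → E} {f : E → F} (hf : ContDiffOn ℝ ∞ f U) {y : E} (hy : y ∈ U)
    {f' : F} (h : HasLineDerivAt ℝ f f' y (X y)) : Dv X f y = f' :=
  (hasLine hU hf hy).unique h

/-- commutator -/
lemma Dv_comm {X Y : E → E} {f : E → F} (hX : ContDiffOn ℝ ∞ X U) (hY : ContDiffOn ℝ ∞ Y U)
    (hf : ContDiffOn ℝ ∞ f U) {y : E} (hy : y ∈ U) :
    Dv X (Dv Y f) y - Dv Y (Dv X f) y = fderiv ℝ f y (Dv X Y y - Dv Y X y) := by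
  have h1 : ∀ (A B : E → E), ContDiffOn ℝ ∞ B U →
      Dv A (Dv B f) y = fderiv ℝ (fderiv ℝ f) y (A y) (B y) + fderiv ℝ f y (Dv A B y) := by
    intro A B hB
    unfold Dv
    have h2 : HasFDerivAt (fun z => fderiv ℝ f z (B z))
        ((fderiv ℝ f y).comp (fderiv ℝ B y) + (fderiv ℝ (fderiv ℝ f) y).flip (B y)) y :=
      (diff_at hU (smooth_fderiv hU hf) hy).hasFDerivAt.clm_apply (diff_at hU hB hy).hasFDerivAt
    rw [h2.fderiv]
    simp [add_comm]
  have hsym : IsSymmSndFDerivAt ℝ f y :=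
    (smooth_at hU hf hy).isSymmSndFDerivAt (by simp; exact WithTop.coe_le_coe.mpr le_top)
  rw [h1 X Y hY, h1 Y X hX, map_sub, hsym.eq (X y) (Y y)]
  abel

end

end Pool.Agent.H77.PF
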