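import Pool.Agent.H77.PF.Curv

/-!
# The curvature is constant: the last step
-/

namespace Pool.Agent.H77.PF

open Set
open scoped ContDiff

variable {E F : Type*} [NormedAddCommGroup E] [NormedSpace ℝ E] [NormedAddCommGroup F]
  [NormedSpace ℝ F]

namespace Data
variable {U : Set E} {om : E →L[ℝ] E →L[ℝ] ℝ} {Γ : E → E →L[ℝ] E →L[ℝ] E}
  {g : E → E →L[ℝ] E →L[ℝ] ℝ} {K : E → ℝ} {X1 X2 : E → E} (H : Data U om Γ g K X1 X2)
include H

lemma comm_fun {p : E → ℝ} (hp : ContDiffOn ℝ ∞ p U) {z : E} (hz : z ∈ U) :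
    Dv X1 (Dv X2 p) z - Dv X2 (Dv X1 p) z =
      fn1 om X1 X2 z * Dv X1 p z + fn2 om X1 X2 z * Dv X2 p z := by
  rw [Dv_comm H.hU H.s1 H.s2 hp hz, H.bracket hz, map_add, map_smul, map_smul]
  rfl

omit H in
lemma pos_of_mul' {a b : ℝ} (h : 0 < a * b) (ha : 0 < a) : 0 < b := by
  by_contra hb
  push Not at hb
  nlinarith

lemma det_pos {y : E} (hy : y ∈ U) :
    0 < g y (X1 y) (X1 y) * g y (X2 y) (X2 y) - g y (X1 y) (X2 y) ^ 2 ∧
      0 < g y (X1 y) (X1 y) := by
  have hi := H.ind y hy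
  have h1 : X1 y ≠ 0 := by
    intro h
    rw [h] at hi
    simp at hi
  have hg11 := H.pos y hy _ h1
  set a := g y (X1 y) (X1 y) with ha
  set b := g y (X1 y) (X2 y) with hb
  set c := g y (X2 y) (X2 y) with hc
  have hb' : g y (X2 y) (X1 y) = b := by rw [hb, H.symg y hy]
  have h2 : (-b) • X1 y + a • X2 y ≠ 0 := by
    intro h
    have h3 := congrArg (fun w => om (X1 y) w) h
    simp only [map_add, map_smul, smul_eq_mul, H.alt, mul_zero, zero_add, map_zero] at h3
    rcases mul_eq_zero.mp h3 with h4 | h4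
    · exact hg11.ne' h4
    · exact hi h4
  have h3 := H.pos y hy _ h2
  simp only [map_add, map_smul, add_apply, smul_apply, smul_eq_mul] at h3
  rw [hb', ← ha, ← hb, ← hc] at h3
  refine ⟨?_, hg11⟩
  have h4 : 0 < a * (a * c - b ^ 2) := by nlinarith
  exact pos_of_mul' h4 hg11

/-- **The curvature is locally constant.** -/
theorem dK {y : E} (hy : y ∈ U) : fderiv ℝ K y = 0 := by
  have hU := H.hU
  have hdv := fun (z : E) (hz : z ∈ U) => H.dv hz
  have hdn := fun (z : E) (hz : z ∈ U) => H.dn hz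
  have hf0 := fun (z : E) (hz : z ∈ U) => H.f_zero hz
  have htab := fun (z : E) (hz : z ∈ U) => H.table hz
  have hcm := fun (p : E → ℝ) (hp : ContDiffOn ℝ ∞ p U) => H.comm_fun hp hy
  set n1 := fn1 om X1 X2 with hn1
  set n2 := fn2 om X1 X2 with hn2
  set v1 := fv1 om Γ X1 X2 with hv1
  set v2 := fv2 om Γ X1 X2 with hv2
  have sv1 : ContDiffOn ℝ ∞ v1 U := H.sv1
  have sv2 : ContDiffOn ℝ ∞ v2 U := H.sv2
  have sn1 : ContDiffOn ℝ ∞ n1 U := H.sn1
  have sn2 : ContDiffOn ℝ ∞ n2 U := H.sn2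
  have sK := H.sK
  set G11 : E → ℝ := fun z => g z (X1 z) (X1 z) with hG11
  set G12 : E → ℝ := fun z => g z (X1 z) (X2 z) with hG12
  set G22 : E → ℝ := fun z => g z (X2 z) (X2 z) with hG22
  have sG11 : ContDiffOn ℝ ∞ G11 U := H.smooth_G H.s1 H.s1
  have sG12 : ContDiffOn ℝ ∞ G12 U := H.smooth_G H.s1 H.s2
  have sG22 : ContDiffOn ℝ ∞ G22 U := H.smooth_G H.s2 H.s2
  obtain ⟨z1, z2, z3⟩ := hdn y hy
  have z4 := hf0 y hy
  rw [z4] at z3
  obtain ⟨u1, u2, u3, u4⟩ := htab y hy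
  obtain ⟨w11, w22, w12, w21⟩ := hdv y hy
  rw [show g y (X1 y) (X1 y) = G11 y from rfl] at w11
  rw [show g y (X2 y) (X2 y) = G22 y from rfl] at w22
  rw [show g y (X1 y) (X2 y) = G12 y from rfl] at w12 w21
  have hsym : g y (X2 y) (X1 y) = g y (X1 y) (X2 y) := H.symg y hy _ _
  have m12 : Dv X1 G12 y = 2 * v1 y * G12 y + (v2 y + n1 y / 2) * G11 y +
      (v1 y + n2 y / 2) * G12 y := by
    rw [hG12, H.metric H.s1 H.s2 hy, u1, u3]
    simp only [map_add, map_smul, smul_apply, smul_eq_mul, hG11]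
    try ring
  have m11 : Dv X2 G11 y = 2 * ((v2 y - n1 y / 2) * G11 y + (v1 y - n2 y / 2) * G12 y) := by
    rw [hG11, H.metric H.s1 H.s1 hy, u4]
    simp only [map_add, map_smul, smul_apply, add_apply, smul_eq_mul, hG12, hsym]
    ring
  have m22 : Dv X1 G22 y = 2 * ((v2 y + n1 y / 2) * G12 y + (v1 y + n2 y / 2) * G22 y) := by
    rw [hG22, H.metric H.s2 H.s2 hy, u3]
    simp only [map_add, map_smul, smul_apply, add_apply, smul_eq_mul, hG12, hsym]
    ring
  have m12' : Dv X2 G12 y = (v2 y - n1 y / 2) * G12 y + (v1 y - n2 y / 2) * G22 y +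
      2 * v2 y * G12 y := by
    rw [hG12, H.metric H.s1 H.s2 hy, u4, u2]
    simp only [map_add, map_smul, smul_apply, add_apply, smul_eq_mul, hG22]

  have line : ∀ (X : E → E) (p : E → ℝ), ContDiffOn ℝ ∞ p U →
      HasDerivAt (fun t : ℝ => p (y + t • X y)) (Dv X p y) 0 := fun X p hp =>
    hasLine hU hp hy
  have s21 : ContDiffOn ℝ ∞ (Dv X2 v1) U := smooth_Dv hU H.s2 sv1
  have s11 : ContDiffOn ℝ ∞ (Dv X1 v1) U := smooth_Dv hU H.s1 sv1
  have s22 : ContDiffOn ℝ ∞ (Dv X2 v2) U := smooth_Dv hU H.s2 sv2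
  have s12 : ContDiffOn ℝ ∞ (Dv X1 v2) U := smooth_Dv hU H.s1 sv2
  -- transfer to expressions
  have mk : ∀ (X : E → E) (p q : E → ℝ) (q' : ℝ), ContDiffOn ℝ ∞ p U → EqOn p q U →
      HasDerivAt (fun t : ℝ => q (y + t • X y)) q' 0 → Dv X p y = q' := by
    intro X p q q' hp hpq hq
    have hq2 : ContDiffOn ℝ ∞ q U := hp.congr (fun z hz => (hpq hz).symm)
    rw [Dv_congr hU hpq hy]
    exact Dv_eq_of_hasLine hU hq2 hy hq
  have e21 : Dv X1 (Dv X2 v1) y = Dv X1 v1 y * v2 y + v1 y * Dv X1 v2 y -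
      (Dv X1 K y * G12 y + K y * Dv X1 G12 y) - (Dv X1 v1 y * n1 y + Dv X1 v2 y * n2 y) / 2 := by
    apply mk X1 (Dv X2 v1) (fun z => v1 z * v2 z - K z * G12 z -
      (v1 z * n1 z + v2 z * n2 z) / 2 + n1 z * n2 z / 4) _ s21 (fun z hz => (hdv z hz).2.2.2)
    have a1 := line X1 v1 sv1
    have a2 := line X1 v2 sv2
    have a3 := line X1 K sK
    have a4 := line X1 G12 sG12
    have a5 := line X1 n1 sn1
    have a6 := line X1 n2 sn2
    have h := ((((a1.mul a2).sub (a3.mul a4)).sub (((a1.mul a5).add (a2.mul a6)).div_const 2)).add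
      ((a5.mul a6).div_const 4))
    refine HasDerivAt.congr_deriv h ?_
    simp only [zero_smul, add_zero]
    rw [z4, z2]
    ring
  have e11 : Dv X2 (Dv X1 v1) y = 2 * v1 y * Dv X2 v1 y -
      (Dv X2 K y * G11 y + K y * Dv X2 G11 y) := by
    apply mk X2 (Dv X1 v1) (fun z => v1 z * v1 z - K z * G11 z - n2 z * n2 z / 4) _ s11
      (fun z hz => by
        have := (hdv z hz).1
        show Dv X1 v1 z = v1 z * v1 z - K z * G11 z - n2 z * n2 z / 4
        rw [this]; ring)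
    have a1 := line X2 v1 sv1
    have a3 := line X2 K sK
    have a4 := line X2 G11 sG11
    have a6 := line X2 n2 sn2
    have h := (((a1.mul a1).sub (a3.mul a4)).sub ((a6.mul a6).div_const 4))
    refine HasDerivAt.congr_deriv h ?_
    simp only [zero_smul, add_zero]
    rw [← z3]
    ring
  have e22 : Dv X1 (Dv X2 v2) y = 2 * v2 y * Dv X1 v2 y -
      (Dv X1 K y * G22 y + K y * Dv X1 G22 y) := by
    apply mk X1 (Dv X2 v2) (fun z => v2 z * v2 z - K z * G22 z - n1 z * n1 z / 4) _ s22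
      (fun z hz => by
        have := (hdv z hz).2.1
        show Dv X2 v2 z = v2 z * v2 z - K z * G22 z - n1 z * n1 z / 4
        rw [this]; ring)
    have a1 := line X1 v2 sv2
    have a3 := line X1 K sK
    have a4 := line X1 G22 sG22
    have a6 := line X1 n1 sn1
    have h := (((a1.mul a1).sub (a3.mul a4)).sub ((a6.mul a6).div_const 4))
    refine HasDerivAt.congr_deriv h ?_
    simp only [zero_smul, add_zero]
    rw [z4]
    ring
  have e12 : Dv X2 (Dv X1 v2) y = Dv X2 v1 y * v2 y + v1 y * Dv X2 v2 y -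
      (Dv X2 K y * G12 y + K y * Dv X2 G12 y) + (Dv X2 v1 y * n1 y + Dv X2 v2 y * n2 y) / 2 := by
    apply mk X2 (Dv X1 v2) (fun z => v1 z * v2 z - K z * G12 z +
      (v1 z * n1 z + v2 z * n2 z) / 2 + n1 z * n2 z / 4) _ s12 (fun z hz => (hdv z hz).2.2.1)
    have a1 := line X2 v1 sv1
    have a2 := line X2 v2 sv2
    have a3 := line X2 K sK
    have a4 := line X2 G12 sG12
    have a5 := line X2 n1 sn1
    have a6 := line X2 n2 sn2
    have h := ((((a1.mul a2).sub (a3.mul a4)).add (((a1.mul a5).add (a2.mul a6)).div_const 2)).add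
      ((a5.mul a6).div_const 4))
    refine HasDerivAt.congr_deriv h ?_
    simp only [zero_smul, add_zero]
    rw [z1, ← z3]
    ring
  have c1 := hcm v1 sv1
  have c2 := hcm v2 sv2
  rw [e21, e11, m12, m11, w11, w12, w21] at c1
  rw [e22, e12, m22, m12', w12, w21, w22] at c2
  have i1 : Dv X2 K y * G11 y = Dv X1 K y * G12 y := by
    linear_combination c1
  have i2 : Dv X2 K y * G12 y = Dv X1 K y * G22 y := by
    linear_combination c2
  obtain ⟨hdet, h11⟩ := H.det_pos hy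
  have hdet' : 0 < G11 y * G22 y - G12 y ^ 2 := hdet
  have h11' : 0 < G11 y := h11
  have k1 : Dv X1 K y = 0 := by
    have : Dv X1 K y * (G11 y * G22 y - G12 y ^ 2) = 0 := by
      linear_combination G12 y * i1 - G11 y * i2
    exact (mul_eq_zero.mp this).resolve_right hdet'.ne'
  have k2 : Dv X2 K y = 0 := by
    rw [k1, zero_mul] at i1
    exact (mul_eq_zero.mp i1).resolve_right h11'.ne'
  ext w
  have hw := H.expand hy w
  rw [hw, map_add, map_smul, map_smul]
  have k1' : fderiv ℝ K y (X1 y) = 0 := k1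
  have k2' : fderiv ℝ K y (X2 y) = 0 := k2
  rw [k1', k2']
  simp

end Data

end Pool.Agent.H77.PF
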