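import Pool.Agent.H77.PF.Proj

/-!
# The curvature is constant
-/

namespace Pool.Agent.H77.PF

open Set
open scoped ContDiff

variable {E F : Type*} [NormedAddCommGroup E] [NormedSpace ℝ E] [NormedAddCommGroup F]
  [NormedSpace ℝ F]

namespace Data
variable {U : Set E} {om : E →L[ℝ] E →L[ℝ] ℝ} {Γ : E → E →L[ℝ] E →L[ℝ] E}
  {g : E → E →L[ℝ] E →L[ℝ] ℝ} {K : E → ℝ} {X1 X2 : E → E} (H : Data U om Γ g K X1 X2)
include H

lemma curvature {Z : E → E} (hZ : ContDiffOn ℝ ∞ Z U) {y : E} (hy : y ∈ U) :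
    nab Γ X1 (nab Γ X2 Z) y - nab Γ X2 (nab Γ X1 Z) y -
      nab Γ (fun z => Dv X1 X2 z - Dv X2 X1 z) Z y =
    K y • (g y (X2 y) (Z y) • X1 y - g y (X1 y) (Z y) • X2 y) := by
  have d1 := (diff_at H.hU H.s1 hy).hasFDerivAt
  have d2 := (diff_at H.hU H.s2 hy).hasFDerivAt
  have dZ := (diff_at H.hU hZ hy).hasFDerivAt
  have dZ2 := (diff_at H.hU (smooth_fderiv H.hU hZ) hy).hasFDerivAt
  have dΓ := (diff_at H.hU H.sΓ hy).hasFDerivAt
  have hsym : IsSymmSndFDerivAt ℝ Z y :=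
    (smooth_at H.hU hZ hy).isSymmSndFDerivAt (by simp; exact WithTop.coe_le_coe.mpr le_top)
  have key : ∀ (A B : E → E), HasFDerivAt B (fderiv ℝ B y) y → nab Γ A (nab Γ B Z) y =
      fderiv ℝ (fderiv ℝ Z) y (A y) (B y) + fderiv ℝ Z y (fderiv ℝ B y (A y)) +
      (fderiv ℝ Γ y (A y) (B y) (Z y) + Γ y (fderiv ℝ B y (A y)) (Z y) +
        Γ y (B y) (fderiv ℝ Z y (A y))) + Γ y (A y) (fderiv ℝ Z y (B y)) +
        Γ y (A y) (Γ y (B y) (Z y)) := by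
    intro A B dB
    have h := (dZ2.clm_apply dB).add ((dΓ.clm_apply dB).clm_apply dZ)
    have h2 : Dv A (nab Γ B Z) y = _ := congrArg (fun L => L (A y)) h.fderiv
    have h3 : nab Γ A (nab Γ B Z) y = Dv A (nab Γ B Z) y +
      Γ y (A y) (fderiv ℝ Z y (B y) + Γ y (B y) (Z y)) := rfl
    rw [h3, h2]
    simp only [add_apply, ContinuousLinearMap.comp_apply, ContinuousLinearMap.flip_apply, map_add]
    abel
  rw [key X1 X2 d2, key X2 X1 d1, ← H.cur y hy (X1 y) (X2 y) (Z y)]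
  have s1 := hsym.eq (X1 y) (X2 y)
  simp only [nab, Dv, map_sub, sub_apply]
  rw [s1]
  abel

/-- metric compatibility -/
lemma metric {X A B : E → E} (hA : ContDiffOn ℝ ∞ A U) (hB : ContDiffOn ℝ ∞ B U) {y : E}
    (hy : y ∈ U) : Dv X (fun z => g z (A z) (B z)) y =
      g y (nab Γ X A y) (B y) + g y (A y) (nab Γ X B y) := by
  have dA := (diff_at H.hU hA hy).hasFDerivAt
  have dB := (diff_at H.hU hB hy).hasFDerivAt
  have dg := (diff_at H.hU H.sg hy).hasFDerivAt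
  have h := (dg.clm_apply dA).clm_apply dB
  have h2 : Dv X (fun z => g z (A z) (B z)) y = _ := congrArg (fun L => L (X y)) h.fderiv
  have hm := H.met y hy (X y) (A y) (B y)
  rw [h2]
  simp only [add_apply, ContinuousLinearMap.comp_apply, ContinuousLinearMap.flip_apply, map_add,
    nab, Dv]
  rw [hm]
  ring

lemma smooth_G {A B : E → E} (hA : ContDiffOn ℝ ∞ A U) (hB : ContDiffOn ℝ ∞ B U) :
    ContDiffOn ℝ ∞ (fun z => g z (A z) (B z)) U := (H.sg.clm_apply hA).clm_apply hB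

/-- the derivatives of `v` -/
lemma dv {y : E} (hy : y ∈ U) :
    Dv X1 (fv1 om Γ X1 X2) y = fv1 om Γ X1 X2 y ^ 2 - K y * g y (X1 y) (X1 y) -
      fn2 om X1 X2 y ^ 2 / 4 ∧
    Dv X2 (fv2 om Γ X1 X2) y = fv2 om Γ X1 X2 y ^ 2 - K y * g y (X2 y) (X2 y) -
      fn1 om X1 X2 y ^ 2 / 4 ∧
    Dv X1 (fv2 om Γ X1 X2) y = fv1 om Γ X1 X2 y * fv2 om Γ X1 X2 y -
      K y * g y (X1 y) (X2 y) + (fv1 om Γ X1 X2 y * fn1 om X1 X2 y +
        fv2 om Γ X1 X2 y * fn2 om X1 X2 y) / 2 + fn1 om X1 X2 y * fn2 om X1 X2 y / 4 ∧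
    Dv X2 (fv1 om Γ X1 X2) y = fv1 om Γ X1 X2 y * fv2 om Γ X1 X2 y -
      K y * g y (X1 y) (X2 y) - (fv1 om Γ X1 X2 y * fn1 om X1 X2 y +
        fv2 om Γ X1 X2 y * fn2 om X1 X2 y) / 2 + fn1 om X1 X2 y * fn2 om X1 X2 y / 4 := by
  have hU := H.hU
  obtain ⟨z1, z2, z3⟩ := H.dn hy
  have z4 := H.f_zero hy
  rw [z4] at z3
  set n1 := fn1 om X1 X2 with hn1
  set n2 := fn2 om X1 X2 with hn2
  set v1 := fv1 om Γ X1 X2 with hv1
  set v2 := fv2 om Γ X1 X2 with hv2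
  have sv1 : ContDiffOn ℝ ∞ v1 U := H.sv1
  have sv2 : ContDiffOn ℝ ∞ v2 U := H.sv2
  have sn1 : ContDiffOn ℝ ∞ n1 U := H.sn1
  have sn2 : ContDiffOn ℝ ∞ n2 U := H.sn2
  have t11 : EqOn (nab Γ X1 X1) (cmb X1 X2 (fun z => 2 * v1 z) (fun _ => 0)) U := by
    intro z hz
    rw [(H.table hz).1]
    simp only [cmb, zero_smul, add_zero, ← hv1]
  have t22 : EqOn (nab Γ X2 X2) (cmb X1 X2 (fun _ => 0) (fun z => 2 * v2 z)) U := by
    intro z hz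
    rw [(H.table hz).2.1]
    simp only [cmb, zero_smul, zero_add, ← hv2]
  have t12 : EqOn (nab Γ X1 X2) (cmb X1 X2 (fun z => v2 z + 1 / 2 * n1 z)
      (fun z => v1 z + 1 / 2 * n2 z)) U := by
    intro z hz
    rw [(H.table hz).2.2.1]
    simp only [cmb, ← hv1, ← hv2, ← hn1, ← hn2]
    module
  have t21 : EqOn (nab Γ X2 X1) (cmb X1 X2 (fun z => v2 z - 1 / 2 * n1 z)
      (fun z => v1 z - 1 / 2 * n2 z)) U := by
    intro z hz
    rw [(H.table hz).2.2.2]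
    simp only [cmb, ← hv1, ← hv2, ← hn1, ← hn2]
    module
  have hN : Dv X1 X2 y - Dv X2 X1 y = cmb X1 X2 n1 n2 y := H.bracket hy
  obtain ⟨u1, u2, u3, u4⟩ := H.table hy
  rw [← hv1] at u1
  rw [← hv2] at u2
  rw [← hv1, ← hv2, ← hn1, ← hn2] at u3 u4
  have hn1' : ContDiffOn ℝ ∞ (fun z => 1 / 2 * n1 z) U := contDiffOn_const.mul sn1
  have hn2' : ContDiffOn ℝ ∞ (fun z => 1 / 2 * n2 z) U := contDiffOn_const.mul sn2
  have c0 : ContDiffOn ℝ ∞ (fun _ : E => (0:ℝ)) U := contDiffOn_const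
  -- Z = X1
  have hc1 := H.curvature H.s1 hy
  rw [nab_congr hU t21 hy, nab_congr hU t11 hy,
    nab_congr_left (X := fun z => Dv X1 X2 z - Dv X2 X1 z) (X' := cmb X1 X2 n1 n2) hN, nab_left,
    H.nab_cmb (sv2.sub hn1') (sv1.sub hn2') hy,
    H.nab_cmb (contDiffOn_const.mul sv1) c0 hy,
    Dv_sub hU sv2 hn1' hy, Dv_sub hU sv1 hn2' hy, Dv_const_mul hU sn1 (1/2) hy,
    Dv_const_mul hU sn2 (1/2) hy, Dv_const_mul hU sv1 2 hy, Dv_const_fun, z4, z2,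
    u1, u3, u4] at hc1
  have hc2 := H.curvature H.s2 hy
  rw [nab_congr hU t22 hy, nab_congr hU t12 hy,
    nab_congr_left (X := fun z => Dv X1 X2 z - Dv X2 X1 z) (X' := cmb X1 X2 n1 n2) hN, nab_left,
    H.nab_cmb (sv2.add hn1') (sv1.add hn2') hy,
    H.nab_cmb c0 (contDiffOn_const.mul sv2) hy,
    Dv_add hU sv2 hn1' hy, Dv_add hU sv1 hn2' hy, Dv_const_mul hU sn1 (1/2) hy,
    Dv_const_mul hU sn2 (1/2) hy, Dv_const_mul hU sv2 2 hy, Dv_const_fun, ← z3, z1,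
    u2, u3, u4] at hc2
  have k1 : (Dv X1 v2 y + (v2 y - 1 / 2 * n1 y) * (2 * v1 y) +
      (v1 y - 1 / 2 * n2 y) * (v2 y + n1 y / 2) -
      (2 * Dv X2 v1 y + 2 * v1 y * (v2 y - n1 y / 2)) -
      (n1 y * (2 * v1 y) + n2 y * (v2 y - n1 y / 2))) • X1 y +
      (Dv X1 v1 y + (v1 y - 1 / 2 * n2 y) * (v1 y + n2 y / 2) -
      (2 * v1 y * (v1 y - n2 y / 2)) - (n2 y * (v1 y - n2 y / 2))) • X2 y =
      (K y * g y (X2 y) (X1 y)) • X1 y + (-(K y * g y (X1 y) (X1 y))) • X2 y := by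
    have e1 : (K y * g y (X2 y) (X1 y)) • X1 y + (-(K y * g y (X1 y) (X1 y))) • X2 y =
      K y • (g y (X2 y) (X1 y) • X1 y - g y (X1 y) (X1 y) • X2 y) := by module
    rw [e1, ← hc1]
    module
  have k2 : (v2 y * 2 * (v2 y + n1 y / 2) -
      (Dv X2 v2 y + (v2 y + 1 / 2 * n1 y) * (v2 y - n1 y / 2)) -
      (n1 y * (v2 y + n1 y / 2))) • X1 y +
      (2 * Dv X1 v2 y + 2 * v2 y * (v1 y + n2 y / 2) -
      (Dv X2 v1 y + (v2 y + 1 / 2 * n1 y) * (v1 y - n2 y / 2) +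
        (v1 y + 1 / 2 * n2 y) * (2 * v2 y)) -
      (n1 y * (v1 y + n2 y / 2) + n2 y * (2 * v2 y))) • X2 y =
      (K y * g y (X2 y) (X2 y)) • X1 y + (-(K y * g y (X1 y) (X2 y))) • X2 y := by
    have e1 : (K y * g y (X2 y) (X2 y)) • X1 y + (-(K y * g y (X1 y) (X2 y))) • X2 y =
      K y • (g y (X2 y) (X2 y) • X1 y - g y (X1 y) (X2 y) • X2 y) := by module
    rw [e1, ← hc2]
    module
  obtain ⟨a1, a2⟩ := H.coef hy k1
  obtain ⟨a3, a4⟩ := H.coef hy k2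
  have hg := H.symg y hy (X2 y) (X1 y)
  rw [hg] at a1
  refine ⟨?_, ?_, ?_, ?_⟩
  · linear_combination a2
  · linear_combination -a3
  · linear_combination (2/3:ℝ) * a4 - (1/3:ℝ) * a1
  · linear_combination (1/3:ℝ) * a4 - (2/3:ℝ) * a1

end Data

end Pool.Agent.H77.PF
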