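import Pool.Agent.H77.PF.Zeta

/-!
# The curvature is constant near a residual pair

`K_const`: final form. `cubic_zero`: a cubic form `om (Q v v) (L v)` with four pairwise independent
zeros vanishes. `exists_area`: an area form on a two-dimensional space.
-/

namespace Pool.Agent.H77.PF

open Set
open scoped ContDiff

variable {E : Type*} [NormedAddCommGroup E] [NormedSpace ℝ E]

/-- the field `X_a = (∂_y z)⁻¹ ∂_x z a` -/
noncomputable def XF (om : E →L[ℝ] E →L[ℝ] ℝ) (e1 e2 : E) (z : E × E → E) (x0 a : E) (y : E) : E :=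
  (om (fderiv ℝ z (x0, y) (a, 0)) (fderiv ℝ z (x0, y) (0, e2)) /
    om (fderiv ℝ z (x0, y) (0, e1)) (fderiv ℝ z (x0, y) (0, e2))) • e1 +
  (om (fderiv ℝ z (x0, y) (0, e1)) (fderiv ℝ z (x0, y) (a, 0)) /
    om (fderiv ℝ z (x0, y) (0, e1)) (fderiv ℝ z (x0, y) (0, e2))) • e2

namespace ZData
variable {W : Set (E × E)} {UY V : Set E} {om : E →L[ℝ] E →L[ℝ] ℝ} {e1 e2 : E}
    {Γ Γ' : E → E →L[ℝ] E →L[ℝ] E} {z : E × E → E} (H : ZData W UY V om e1 e2 Γ Γ' z)
include H

lemma XF_eq (x0 a : E) {y : E} (hy : (x0, y) ∈ W) :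
    fderiv ℝ z (x0, y) (0, XF om e1 e2 z x0 a y) = fderiv ℝ z (x0, y) (a, 0) := by
  have hB := H.dB _ hy
  set u := fderiv ℝ z (x0, y) (0, e1) with hu
  set v := fderiv ℝ z (x0, y) (0, e2) with hv
  set w := fderiv ℝ z (x0, y) (a, 0) with hw
  have h1 : ((0, XF om e1 e2 z x0 a y) : E × E) =
      (om w v / om u v) • (0, e1) + (om u w / om u v) • (0, e2) := by
    simp only [XF, Prod.smul_mk, smul_zero, Prod.mk_add_mk, add_zero]
    rfl
  rw [h1, map_add, map_smul, map_smul, ← hu, ← hv]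
  have h2 := H.cr u v w
  rw [div_eq_inv_mul, div_eq_inv_mul, ← smul_smul, ← smul_smul, ← smul_add, ← h2, smul_smul,
    inv_mul_cancel₀ hB, one_smul]

lemma smooth_slice (x0 : E) (k : E × E) :
    ContDiffOn ℝ ∞ (fun y => fderiv ℝ z (x0, y) k) {y | (x0, y) ∈ W} := by
  have h1 : ContDiffOn ℝ ∞ (fun y : E => fderiv ℝ z (x0, y)) {y | (x0, y) ∈ W} :=
    H.sD.comp (f := fun y : E => (x0, y)) (contDiff_prodMk_right x0).contDiffOn (fun y hy => hy)
  exact h1.clm_apply contDiffOn_const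

lemma smooth_XF (x0 a : E) : ContDiffOn ℝ ∞ (XF om e1 e2 z x0 a) {y | (x0, y) ∈ W} := by
  have ha := H.smooth_slice x0 (a, 0)
  have h1 := H.smooth_slice x0 (0, e1)
  have h2 := H.smooth_slice x0 (0, e2)
  have hd : ContDiffOn ℝ ∞ (fun y => om (fderiv ℝ z (x0, y) (0, e1))
      (fderiv ℝ z (x0, y) (0, e2))) {y | (x0, y) ∈ W} :=
    (om.contDiff.comp_contDiffOn h1).clm_apply h2
  refine ContDiffOn.add ?_ ?_
  · exact ((((om.contDiff.comp_contDiffOn ha).clm_apply h2).div hd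
      (fun y hy => H.dB _ hy))).smul contDiffOn_const
  · exact ((((om.contDiff.comp_contDiffOn h1).clm_apply ha).div hd
      (fun y hy => H.dB _ hy))).smul contDiffOn_const

/-- the frame data at fixed `x0` -/
theorem toData {g : E → E →L[ℝ] E →L[ℝ] ℝ} {K : E → ℝ}
    (sg : ContDiffOn ℝ ∞ g UY) (symg : ∀ y ∈ UY, ∀ v w, g y v w = g y w v)
    (pos : ∀ y ∈ UY, ∀ v, v ≠ 0 → 0 < g y v v)
    (met : ∀ y ∈ UY, ∀ u v w, fderiv ℝ g y u v w = g y (Γ y u v) w + g y v (Γ y u w))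
    (sK : ContDiffOn ℝ ∞ K UY)
    (cur : ∀ y ∈ UY, ∀ u v w, fderiv ℝ Γ y u v w - fderiv ℝ Γ y v u w + Γ y u (Γ y v w) -
      Γ y v (Γ y u w) = K y • (g y v w • u - g y u w • v)) (x0 : E) :
    Data {y | (x0, y) ∈ W} om Γ g K (XF om e1 e2 z x0 e1) (XF om e1 e2 z x0 e2) := by
  have hsub : {y | (x0, y) ∈ W} ⊆ UY := fun y hy => H.mY _ hy
  refine ⟨H.slice_open x0, H.alt, H.cr, H.sΓ.mono hsub, fun y hy => H.symΓ y (hsub hy),
    sg.mono hsub, fun y hy => symg y (hsub hy), fun y hy => pos y (hsub hy),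
    fun y hy => met y (hsub hy), sK.mono hsub, fun y hy => cur y (hsub hy),
    H.smooth_XF x0 e1, H.smooth_XF x0 e2, ?_, ?_, ?_⟩
  · intro y hy h0
    apply H.dA _ hy
    have h1 := om_map H.alt H.cr ((fderiv ℝ z (x0, y)).comp (ContinuousLinearMap.inr ℝ E E))
      e1 e2 (XF om e1 e2 z x0 e1 y) (XF om e1 e2 z x0 e2 y)
    rw [h0, mul_zero, mul_zero] at h1
    simp only [ContinuousLinearMap.comp_apply, ContinuousLinearMap.inr_apply] at h1
    rw [H.XF_eq x0 e1 hy, H.XF_eq x0 e2 hy] at h1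
    exact (mul_eq_zero.mp h1).resolve_left (pow_ne_zero 2 H.e12)
  · intro y hy a b
    have hs : ContDiffOn ℝ ∞ (fun q => a • XF om e1 e2 z x0 e1 q + b • XF om e1 e2 z x0 e2 q)
        {y | (x0, y) ∈ W} :=
      ((H.smooth_XF x0 e1).const_smul a).add ((H.smooth_XF x0 e2).const_smul b)
    have he : ∀ q, (x0, q) ∈ W → fderiv ℝ z (x0, q)
        (0, a • XF om e1 e2 z x0 e1 q + b • XF om e1 e2 z x0 e2 q) =
        fderiv ℝ z (x0, q) (a • e1 + b • e2, 0) := by
      intro q hq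
      have h1 : ((0, a • XF om e1 e2 z x0 e1 q + b • XF om e1 e2 z x0 e2 q) : E × E) =
          a • (0, XF om e1 e2 z x0 e1 q) + b • (0, XF om e1 e2 z x0 e2 q) := by simp
      have h2 : ((a • e1 + b • e2, 0) : E × E) = a • (e1, 0) + b • (e2, 0) := by simp
      rw [h1, h2, map_add, map_add, map_smul, map_smul, map_smul, map_smul, H.XF_eq x0 e1 hq,
        H.XF_eq x0 e2 hq]
    exact H.geoZ hs he hy
  · intro y hy v
    exact H.projZ (H.smooth_XF x0 e1) (fun q hq => H.XF_eq x0 e1 hq) hy v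

end ZData

/-- an area form on a two-dimensional space -/
lemma exists_area (h2 : Module.finrank ℝ E = 2) : ∃ (om : E →L[ℝ] E →L[ℝ] ℝ) (e1 e2 : E),
    (∀ v, om v v = 0) ∧ (∀ u v w, om u v • w = om w v • u + om u w • v) ∧ om e1 e2 ≠ 0 ∧
    (∀ u v, om u v = 0 → v ≠ 0 → ∃ c : ℝ, u = c • v) := by
  have : FiniteDimensional ℝ E := FiniteDimensional.of_finrank_pos (by omega)
  let b : Module.Basis (Fin 2) ℝ E := Module.finBasisOfFinrankEq ℝ E h2
  let c0 : E →L[ℝ] ℝ := LinearMap.toContinuousLinearMap (b.coord 0)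
  let c1 : E →L[ℝ] ℝ := LinearMap.toContinuousLinearMap (b.coord 1)
  let om : E →L[ℝ] E →L[ℝ] ℝ := c0.smulRight c1 - c1.smulRight c0
  have hom : ∀ u v, om u v = b.repr u 0 * b.repr v 1 - b.repr u 1 * b.repr v 0 := by
    intro u v
    rfl
  have hcr : ∀ u v w, om u v • w = om w v • u + om u w • v := by
    intro u v w
    apply b.ext_elem
    intro i
    rw [hom, hom, hom]
    fin_cases i
    · simp only [map_smul, map_add, Finsupp.smul_apply, Finsupp.add_apply, smul_eq_mul,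
        Fin.zero_eta, Fin.isValue]
      ring
    · simp only [map_smul, map_add, Finsupp.smul_apply, Finsupp.add_apply, smul_eq_mul,
        Fin.mk_one, Fin.isValue]
      ring
  have halt : ∀ v, om v v = 0 := by
    intro v
    rw [hom]; ring
  have h12 : om (b 0) (b 1) ≠ 0 := by
    rw [hom]
    simp
  refine ⟨om, b 0, b 1, halt, hcr, h12, ?_⟩
  intro u v huv hv
  -- some `w` with `om w v ≠ 0`
  have hw : ∃ w, om w v ≠ 0 := by
    by_contra hne
    push Not at hne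
    apply hv
    have h1 := hcr (b 0) (b 1) v
    rw [anti_of halt v (b 1), hne (b 1), hne (b 0)] at h1
    simp only [neg_zero, zero_smul, add_zero] at h1
    exact (smul_eq_zero.mp h1).resolve_left h12
  obtain ⟨w, hw⟩ := hw
  have h1 := hcr u v w
  rw [huv, zero_smul] at h1
  refine ⟨-(om u w / om w v), ?_⟩
  have h3 : om w v • u = (-om u w) • v := by
    rw [neg_smul]
    exact eq_neg_of_add_eq_zero_left h1.symm
  have h4 := congrArg (fun t => (om w v)⁻¹ • t) h3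
  simp only [smul_smul, inv_mul_cancel₀ hw, one_smul] at h4
  refine h4.trans ?_
  congr 1
  field_simp

/-- a cubic form in two variables with four different zeros vanishes -/
lemma cubic_zero {om : E →L[ℝ] E →L[ℝ] ℝ} (alt : ∀ v, om v v = 0)
    (cr : ∀ u v w, om u v • w = om w v • u + om u w • v) (Q : E →L[ℝ] E →L[ℝ] E) (L : E →L[ℝ] E)
    (e : Fin 4 → E) (he : ∀ i j, i ≠ j → om (e i) (e j) ≠ 0)
    (h : ∀ i, om (Q (e i) (e i)) (L (e i)) = 0) (v : E) : om (Q v v) (L v) = 0 := by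
  -- `D u = (om u e1) e0 ...`
  set p := e 0 with hp
  set q := e 1 with hq
  have hpq : om p q ≠ 0 := he 0 1 (by decide)
  have hexp : ∀ w : E, ∀ a b : ℝ, w = a • p + b • q → om (Q w w) (L w) =
      a ^ 3 * om (Q p p) (L p) + a ^ 2 * b * (om (Q p p) (L q) + om (Q p q) (L p) +
        om (Q q p) (L p)) + a * b ^ 2 * (om (Q p q) (L q) + om (Q q p) (L q) + om (Q q q) (L p)) +
      b ^ 3 * om (Q q q) (L q) := by
    intro w a b hw
    rw [hw]
    simp only [map_add, map_smul, add_apply, smul_apply, smul_eq_mul]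
    ring
  set c1 := om (Q p p) (L q) + om (Q p q) (L p) + om (Q q p) (L p) with hc1
  set c2 := om (Q p q) (L q) + om (Q q p) (L q) + om (Q q q) (L p) with hc2
  have h0 : om (Q p p) (L p) = 0 := h 0
  have h1 : om (Q q q) (L q) = 0 := h 1
  have hrep : ∀ w : E, w = (om w q / om p q) • p + (om p w / om p q) • q := by
    intro w
    have h2 := cr p q w
    rw [div_eq_inv_mul, div_eq_inv_mul, ← smul_smul, ← smul_smul, ← smul_add, ← h2, smul_smul,
      inv_mul_cancel₀ hpq, one_smul]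
  have key : ∀ w : E, om w q ≠ 0 → om p w ≠ 0 → om (Q w w) (L w) = 0 →
      om w q * c1 + om p w * c2 = 0 := by
    intro w ha hb hw
    have h2 := hexp w _ _ (hrep w)
    rw [hw, h0, h1] at h2
    have h3 : (om w q / om p q) * (om p w / om p q) *
        ((om w q * c1 + om p w * c2) / om p q) = 0 := by
      rw [← sub_eq_zero] at h2
      have : (om w q / om p q) * (om p w / om p q) * ((om w q * c1 + om p w * c2) / om p q) =
        (om w q / om p q) ^ 2 * (om p w / om p q) * c1 +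
          (om w q / om p q) * (om p w / om p q) ^ 2 * c2 := by
        field_simp
      rw [this]
      linarith
    have h4 : (om w q / om p q) * (om p w / om p q) ≠ 0 :=
      mul_ne_zero (div_ne_zero ha hpq) (div_ne_zero hb hpq)
    have h5 := (mul_eq_zero.mp h3).resolve_left h4
    exact (div_eq_zero_iff.mp h5).resolve_right hpq
  have k2 := key (e 2) (he 2 1 (by decide)) (he 0 2 (by decide)) (h 2)
  have k3 := key (e 3) (he 3 1 (by decide)) (he 0 3 (by decide)) (h 3)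
  -- determinant
  have hpl := plucker cr p q (e 2) (e 3)
  have h23 := he 2 3 (by decide)
  have hq3 := anti_of alt q (e 3)
  have hd : om (e 2) q * om p (e 3) - om (e 3) q * om p (e 2) ≠ 0 := by
    have : om (e 2) q * om p (e 3) - om (e 3) q * om p (e 2) = om p q * om (e 2) (e 3) := by
      rw [hpl, hq3]; ring
    rw [this]
    exact mul_ne_zero hpq h23
  have z1 : c1 = 0 := by
    have : (om (e 2) q * om p (e 3) - om (e 3) q * om p (e 2)) * c1 = 0 := by
      linear_combination om p (e 3) * k2 - om p (e 2) * k3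
    exact (mul_eq_zero.mp this).resolve_left hd
  have z2 : c2 = 0 := by
    have : (om (e 2) q * om p (e 3) - om (e 3) q * om p (e 2)) * c2 = 0 := by
      linear_combination om (e 2) q * k3 - om (e 3) q * k2
    exact (mul_eq_zero.mp this).resolve_left hd
  rw [hexp v _ _ (hrep v), h0, h1, z1, z2]
  ring

/-- **The curvature is constant.** -/
theorem K_const (h2 : Module.finrank ℝ E = 2) {W : Set (E × E)} {UY V : Set E}
    {Γ Γ' : E → E →L[ℝ] E →L[ℝ] E} {z : E × E → E} {g : E → E →L[ℝ] E →L[ℝ] ℝ} {K : E → ℝ}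
    (hW : IsOpen W) (hUY : IsOpen UY) (hV : IsOpen V) (sz : ContDiffOn ℝ ∞ z W)
    (mY : ∀ p ∈ W, p.2 ∈ UY) (mz : ∀ p ∈ W, z p ∈ V)
    (sΓ : ContDiffOn ℝ ∞ Γ UY) (symΓ : ∀ y ∈ UY, ∀ v w, Γ y v w = Γ y w v)
    (sΓ' : ContDiffOn ℝ ∞ Γ' V) (symΓ' : ∀ y ∈ V, ∀ v w, Γ' y v w = Γ' y w v)
    (dA : ∀ p ∈ W, Function.Injective fun a => fderiv ℝ z p (a, 0))
    (dB : ∀ p ∈ W, Function.Injective fun v => fderiv ℝ z p (0, v))
    (condA : ∀ p ∈ W, ∀ v, ∃ c : ℝ, fderiv ℝ (fderiv ℝ z) p (0, v) (0, v) +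
      Γ' (z p) (fderiv ℝ z p (0, v)) (fderiv ℝ z p (0, v)) - fderiv ℝ z p (0, Γ p.2 v v) =
        c • fderiv ℝ z p (0, v))
    (condB : ∀ p ∈ W, ∀ a u, fderiv ℝ z p (0, u) = fderiv ℝ z p (a, 0) →
      ∃ c : ℝ, fderiv ℝ (fderiv ℝ z) p (a, 0) (0, u) +
        Γ' (z p) (fderiv ℝ z p (a, 0)) (fderiv ℝ z p (a, 0)) = c • fderiv ℝ z p (a, 0))
    (sg : ContDiffOn ℝ ∞ g UY) (symg : ∀ y ∈ UY, ∀ v w, g y v w = g y w v)
    (pos : ∀ y ∈ UY, ∀ v, v ≠ 0 → 0 < g y v v)
    (met : ∀ y ∈ UY, ∀ u v w, fderiv ℝ g y u v w = g y (Γ y u v) w + g y v (Γ y u w))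
    (sK : ContDiffOn ℝ ∞ K UY)
    (cur : ∀ y ∈ UY, ∀ u v w, fderiv ℝ Γ y u v w - fderiv ℝ Γ y v u w + Γ y u (Γ y v w) -
      Γ y v (Γ y u w) = K y • (g y v w • u - g y u w • v)) :
    ∀ p ∈ W, fderiv ℝ K p.2 = 0 := by
  obtain ⟨om, e1, e2, alt, cr, e12, par⟩ := exists_area h2
  have hinj : ∀ L : E →ₗ[ℝ] E, Function.Injective L → om (L e1) (L e2) ≠ 0 := by
    intro L hL h0
    have he2 : e2 ≠ 0 := by
      rintro rfl
      simp at e12
    have hLe2 : L e2 ≠ 0 := fun h => he2 (hL (by rw [h, map_zero]))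
    obtain ⟨c, hc⟩ := par _ _ h0 hLe2
    have h1 : e1 = c • e2 := hL (by rw [hc, map_smul])
    apply e12
    rw [h1, map_smul, smul_apply, alt, smul_zero]
  have hZ : ZData W UY V om e1 e2 Γ Γ' z := by
    refine ⟨hW, hUY, hV, alt, cr, e12, sz, mY, mz, sΓ, symΓ, sΓ', symΓ', ?_, ?_, ?_, ?_⟩
    · intro p hp
      exact hinj ((fderiv ℝ z p).comp (ContinuousLinearMap.inl ℝ E E)).toLinearMap (dA p hp)
    · intro p hp
      exact hinj ((fderiv ℝ z p).comp (ContinuousLinearMap.inr ℝ E E)).toLinearMap (dB p hp)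
    · intro p hp v
      obtain ⟨c, hc⟩ := condA p hp v
      rw [hc, map_smul, smul_apply, alt, smul_zero]
    · intro p hp a u hau
      obtain ⟨c, hc⟩ := condB p hp a u hau
      rw [hc, map_smul, smul_apply, alt, smul_zero]
  intro p hp
  exact (hZ.toData sg symg pos met sK cur p.1).dK (y := p.2) hp

end Pool.Agent.H77.PF
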