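import Pool.Agent.H77.PF.Calc

/-!
# A frame of projective fields with geodesic integral curves

`E` has dimension two; `om` is an area form. The frame `X1, X2` is such that every field
`a X1 + b X2` (`a, b` real) is projective and has geodesic integral curves. Then the curvature is
locally constant.
-/

namespace Pool.Agent.H77.PF

open Set
open scoped ContDiff

variable {E F : Type*} [NormedAddCommGroup E] [NormedSpace ℝ E] [NormedAddCommGroup F]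
  [NormedSpace ℝ F]

/-- covariant derivative -/
noncomputable def nab (Γ : E → E →L[ℝ] E →L[ℝ] E) (X Y : E → E) (y : E) : E :=
  Dv X Y y + Γ y (X y) (Y y)

/-- Lie derivative of the connection along `X`, evaluated on `(v, v)` -/
noncomputable def LieΓ (Γ : E → E →L[ℝ] E →L[ℝ] E) (X : E → E) (y v : E) : E :=
  fderiv ℝ Γ y (X y) v v - fderiv ℝ X y (Γ y v v) + (2:ℝ) • Γ y (fderiv ℝ X y v) v +
    fderiv ℝ (fderiv ℝ X) y v v

/-- The hypotheses. -/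
structure Data (U : Set E) (om : E →L[ℝ] E →L[ℝ] ℝ) (Γ : E → E →L[ℝ] E →L[ℝ] E)
    (g : E → E →L[ℝ] E →L[ℝ] ℝ) (K : E → ℝ) (X1 X2 : E → E) : Prop where
  hU : IsOpen U
  alt : ∀ v, om v v = 0
  cr : ∀ u v w, om u v • w = om w v • u + om u w • v
  sΓ : ContDiffOn ℝ ∞ Γ U
  symΓ : ∀ y ∈ U, ∀ v w, Γ y v w = Γ y w v
  sg : ContDiffOn ℝ ∞ g U
  symg : ∀ y ∈ U, ∀ v w, g y v w = g y w v
  pos : ∀ y ∈ U, ∀ v, v ≠ 0 → 0 < g y v v
  met : ∀ y ∈ U, ∀ u v w, fderiv ℝ g y u v w = g y (Γ y u v) w + g y v (Γ y u w)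
  sK : ContDiffOn ℝ ∞ K U
  cur : ∀ y ∈ U, ∀ u v w, fderiv ℝ Γ y u v w - fderiv ℝ Γ y v u w + Γ y u (Γ y v w) -
    Γ y v (Γ y u w) = K y • (g y v w • u - g y u w • v)
  s1 : ContDiffOn ℝ ∞ X1 U
  s2 : ContDiffOn ℝ ∞ X2 U
  ind : ∀ y ∈ U, om (X1 y) (X2 y) ≠ 0
  geo : ∀ y ∈ U, ∀ a b : ℝ, om (nab Γ (fun z => a • X1 z + b • X2 z)
    (fun z => a • X1 z + b • X2 z) y) (a • X1 y + b • X2 y) = 0
  proj : ∀ y ∈ U, ∀ v, om (LieΓ Γ X1 y v) v = 0

/-- the field `p X1 + q X2` -/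
def cmb (X1 X2 : E → E) (p q : E → ℝ) (z : E) : E := p z • X1 z + q z • X2 z

namespace Data
variable {U : Set E} {om : E →L[ℝ] E →L[ℝ] ℝ} {Γ : E → E →L[ℝ] E →L[ℝ] E}
  {g : E → E →L[ℝ] E →L[ℝ] ℝ} {K : E → ℝ} {X1 X2 : E → E} (H : Data U om Γ g K X1 X2)
include H

lemma anti (v w : E) : om v w = -om w v := by
  have h1 := H.alt (v + w)
  simp only [map_add, add_apply, H.alt v, H.alt w] at h1
  linarith

lemma coef {y : E} (hy : y ∈ U) {p q p' q' : ℝ}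
    (h : p • X1 y + q • X2 y = p' • X1 y + q' • X2 y) : p = p' ∧ q = q' := by
  have hi := H.ind y hy
  have h1 := congrArg (fun z => om z (X2 y)) h
  have h2 := congrArg (fun z => om (X1 y) z) h
  simp only [map_add, map_smul, add_apply, smul_apply,
    H.alt, smul_eq_mul, mul_zero, add_zero, zero_add] at h1 h2
  exact ⟨mul_right_cancel₀ hi h1, mul_right_cancel₀ hi h2⟩

lemma expand {y : E} (hy : y ∈ U) (w : E) :
    w = (om w (X2 y) / om (X1 y) (X2 y)) • X1 y + (om (X1 y) w / om (X1 y) (X2 y)) • X2 y := by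
  have hi := H.ind y hy
  have h := H.cr (X1 y) (X2 y) w
  rw [div_eq_inv_mul, div_eq_inv_mul, ← smul_smul, ← smul_smul, ← smul_add, ← h, smul_smul,
    inv_mul_cancel₀ hi, one_smul]

/-- product rule in the frame -/
lemma Dv_cmb {X : E → E} {p q : E → ℝ} (hp : ContDiffOn ℝ ∞ p U) (hq : ContDiffOn ℝ ∞ q U)
    {y : E} (hy : y ∈ U) : Dv X (cmb X1 X2 p q) y =
      Dv X p y • X1 y + p y • Dv X X1 y + (Dv X q y • X2 y + q y • Dv X X2 y) := by
  have h1 : HasFDerivAt (cmb X1 X2 p q)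
      ((p y • fderiv ℝ X1 y + (fderiv ℝ p y).smulRight (X1 y)) +
        (q y • fderiv ℝ X2 y + (fderiv ℝ q y).smulRight (X2 y))) y :=
    ((diff_at H.hU hp hy).hasFDerivAt.smul (diff_at H.hU H.s1 hy).hasFDerivAt).add
      ((diff_at H.hU hq hy).hasFDerivAt.smul (diff_at H.hU H.s2 hy).hasFDerivAt)
  unfold Dv
  rw [h1.fderiv]
  simp only [add_apply, smul_apply,
    ContinuousLinearMap.smulRight_apply]
  abel

lemma smooth_cmb {p q : E → ℝ} (hp : ContDiffOn ℝ ∞ p U) (hq : ContDiffOn ℝ ∞ q U) :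
    ContDiffOn ℝ ∞ (cmb X1 X2 p q) U := (hp.smul H.s1).add (hq.smul H.s2)

lemma nab_cmb {X : E → E} {p q : E → ℝ} (hp : ContDiffOn ℝ ∞ p U) (hq : ContDiffOn ℝ ∞ q U)
    {y : E} (hy : y ∈ U) : nab Γ X (cmb X1 X2 p q) y =
      Dv X p y • X1 y + p y • nab Γ X X1 y + (Dv X q y • X2 y + q y • nab Γ X X2 y) := by
  unfold nab
  rw [H.Dv_cmb hp hq hy]
  simp only [cmb, map_add, map_smul, smul_add]
  abel

omit H in
lemma nab_left {p q : E → ℝ} {Z : E → E} {y : E} : nab Γ (cmb X1 X2 p q) Z y =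
      p y • nab Γ X1 Z y + q y • nab Γ X2 Z y := by
  unfold nab Dv
  simp only [cmb, map_add, map_smul, smul_add, add_apply,
    smul_apply]
  abel

/-- torsion free -/
lemma torsion {X Y : E → E} {y : E} (hy : y ∈ U) :
    nab Γ X Y y - nab Γ Y X y = Dv X Y y - Dv Y X y := by
  unfold nab
  rw [H.symΓ y hy (X y) (Y y)]
  abel

lemma smooth_om {f h : E → E} (hf : ContDiffOn ℝ ∞ f U) (hh : ContDiffOn ℝ ∞ h U) :
    ContDiffOn ℝ ∞ (fun y => om (f y) (h y)) U :=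
  (om.contDiff.comp_contDiffOn hf).clm_apply hh

lemma smooth_nab {X Y : E → E} (hX : ContDiffOn ℝ ∞ X U) (hY : ContDiffOn ℝ ∞ Y U) :
    ContDiffOn ℝ ∞ (nab Γ X Y) U :=
  (smooth_Dv H.hU hX hY).add ((H.sΓ.clm_apply hX).clm_apply hY)

end Data

section defs
variable (om : E →L[ℝ] E →L[ℝ] ℝ) (Γ : E → E →L[ℝ] E →L[ℝ] E) (X1 X2 : E → E)

noncomputable def fv1 : E → ℝ := fun y => om (nab Γ X1 X1 y) (X2 y) / om (X1 y) (X2 y) / 2
noncomputable def fv2 : E → ℝ := fun y => om (X1 y) (nab Γ X2 X2 y) / om (X1 y) (X2 y) / 2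
noncomputable def fn1 : E → ℝ := fun y => om (Dv X1 X2 y - Dv X2 X1 y) (X2 y) / om (X1 y) (X2 y)
noncomputable def fn2 : E → ℝ := fun y => om (X1 y) (Dv X1 X2 y - Dv X2 X1 y) / om (X1 y) (X2 y)

end defs

namespace Data
variable {U : Set E} {om : E →L[ℝ] E →L[ℝ] ℝ} {Γ : E → E →L[ℝ] E →L[ℝ] E}
  {g : E → E →L[ℝ] E →L[ℝ] ℝ} {K : E → ℝ} {X1 X2 : E → E} (H : Data U om Γ g K X1 X2)
include H

lemma smooth_d : ContDiffOn ℝ ∞ (fun y => om (X1 y) (X2 y)) U := H.smooth_om H.s1 H.s2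

lemma sv1 : ContDiffOn ℝ ∞ (fv1 om Γ X1 X2) U :=
  ((H.smooth_om (H.smooth_nab H.s1 H.s1) H.s2).div H.smooth_d H.ind).div_const 2

lemma sv2 : ContDiffOn ℝ ∞ (fv2 om Γ X1 X2) U :=
  ((H.smooth_om H.s1 (H.smooth_nab H.s2 H.s2)).div H.smooth_d H.ind).div_const 2

lemma sN : ContDiffOn ℝ ∞ (fun y => Dv X1 X2 y - Dv X2 X1 y) U :=
  (smooth_Dv H.hU H.s1 H.s2).sub (smooth_Dv H.hU H.s2 H.s1)

lemma sn1 : ContDiffOn ℝ ∞ (fn1 om X1 X2) U :=
  (H.smooth_om H.sN H.s2).div H.smooth_d H.ind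

lemma sn2 : ContDiffOn ℝ ∞ (fn2 om X1 X2) U :=
  (H.smooth_om H.s1 H.sN).div H.smooth_d H.ind

lemma bracket {y : E} (hy : y ∈ U) : Dv X1 X2 y - Dv X2 X1 y =
    fn1 om X1 X2 y • X1 y + fn2 om X1 X2 y • X2 y := H.expand hy _

omit H in
lemma Dv_const_fun {X : E → E} {c : ℝ} {y : E} : Dv X (fun _ : E => c) y = 0 := by
  unfold Dv; simp

lemma nab_const {X : E → E} (a b : ℝ) {y : E} (hy : y ∈ U) :
    nab Γ X (cmb X1 X2 (fun _ => a) (fun _ => b)) y = a • nab Γ X X1 y + b • nab Γ X X2 y := by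
  rw [H.nab_cmb contDiffOn_const contDiffOn_const hy, Dv_const_fun, Dv_const_fun]
  simp

lemma geo' {y : E} (hy : y ∈ U) (a b : ℝ) :
    om ((a * a) • nab Γ X1 X1 y + (a * b) • (nab Γ X1 X2 y + nab Γ X2 X1 y) +
      (b * b) • nab Γ X2 X2 y) (a • X1 y + b • X2 y) = 0 := by
  have h := H.geo y hy a b
  have e : nab Γ (fun z => a • X1 z + b • X2 z) (fun z => a • X1 z + b • X2 z) y =
      (a * a) • nab Γ X1 X1 y + (a * b) • (nab Γ X1 X2 y + nab Γ X2 X1 y) +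
      (b * b) • nab Γ X2 X2 y := by
    show nab Γ (cmb X1 X2 (fun _ => a) (fun _ => b)) (cmb X1 X2 (fun _ => a) (fun _ => b)) y = _
    rw [nab_left, H.nab_const a b hy, H.nab_const a b hy]
    module
  rwa [e] at h

lemma table {y : E} (hy : y ∈ U) :
    nab Γ X1 X1 y = (2 * fv1 om Γ X1 X2 y) • X1 y ∧
    nab Γ X2 X2 y = (2 * fv2 om Γ X1 X2 y) • X2 y ∧
    nab Γ X1 X2 y = (fv2 om Γ X1 X2 y + fn1 om X1 X2 y / 2) • X1 y +
      (fv1 om Γ X1 X2 y + fn2 om X1 X2 y / 2) • X2 y ∧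
    nab Γ X2 X1 y = (fv2 om Γ X1 X2 y - fn1 om X1 X2 y / 2) • X1 y +
      (fv1 om Γ X1 X2 y - fn2 om X1 X2 y / 2) • X2 y := by
  have hi := H.ind y hy
  set d := om (X1 y) (X2 y) with hd
  set P := nab Γ X1 X1 y with hP
  set Q := nab Γ X2 X2 y with hQ
  set S := nab Γ X1 X2 y + nab Γ X2 X1 y with hS
  have g1 := H.geo' hy 1 0
  have g2 := H.geo' hy 0 1
  have g3 := H.geo' hy 1 1
  have g4 := H.geo' hy 1 (-1)
  rw [← hP, ← hQ, ← hS] at g1 g2 g3 g4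
  simp only [map_add, map_smul, add_apply, smul_apply, smul_eq_mul, mul_one, one_mul, mul_zero,
    zero_mul, add_zero, zero_add] at g1 g2 g3 g4
  have a1 := H.anti (X1 y) P
  have a2 := H.anti (X1 y) S
  have a3 := H.anti (X1 y) Q
  have eP : P = (2 * fv1 om Γ X1 X2 y) • X1 y := by
    have h := H.expand hy P
    have h1 : om (X1 y) P = 0 := by rw [a1, g1, neg_zero]
    rw [h1, zero_div, zero_smul, add_zero] at h
    rw [h]
    congr 1
    show _ = 2 * (om (nab Γ X1 X1 y) (X2 y) / om (X1 y) (X2 y) / 2)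
    rw [← hP, ← hd]
    ring
  have eQ : Q = (2 * fv2 om Γ X1 X2 y) • X2 y := by
    have h := H.expand hy Q
    rw [g2, zero_div, zero_smul, zero_add] at h
    rw [h]
    congr 1
    show _ = 2 * (om (X1 y) (nab Γ X2 X2 y) / om (X1 y) (X2 y) / 2)
    rw [← hQ, ← hd]
    ring
  have eS : S = (2 * fv2 om Γ X1 X2 y) • X1 y + (2 * fv1 om Γ X1 X2 y) • X2 y := by
    have h := H.expand hy S
    have h1 : om S (X2 y) = 2 * fv2 om Γ X1 X2 y * d := by
      have e1 : fv2 om Γ X1 X2 y = om (X1 y) Q / d / 2 := rfl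
      rw [e1]
      field_simp
      linarith
    have h2 : om (X1 y) S = 2 * fv1 om Γ X1 X2 y * d := by
      have e1 : fv1 om Γ X1 X2 y = om P (X2 y) / d / 2 := rfl
      rw [e1]
      field_simp
      linarith
    rw [h1, h2, mul_div_cancel_right₀ _ hi, mul_div_cancel_right₀ _ hi] at h
    exact h
  have eN : nab Γ X1 X2 y - nab Γ X2 X1 y = fn1 om X1 X2 y • X1 y + fn2 om X1 X2 y • X2 y := by
    rw [H.torsion hy, H.bracket hy]
  refine ⟨eP, eQ, ?_, ?_⟩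
  · have e1 : nab Γ X1 X2 y = (1/2:ℝ) • (S + (nab Γ X1 X2 y - nab Γ X2 X1 y)) := by
      rw [hS]; module
    rw [e1, eS, eN]
    module
  · have e1 : nab Γ X2 X1 y = (1/2:ℝ) • (S - (nab Γ X1 X2 y - nab Γ X2 X1 y)) := by
      rw [hS]; module
    rw [e1, eS, eN]
    module

/-- The Lie derivative of the connection. -/
lemma lie_formula {X Y : E → E} (hX : ContDiffOn ℝ ∞ X U) (hY : ContDiffOn ℝ ∞ Y U) {y : E}
    (hy : y ∈ U) : LieΓ Γ X y (Y y) = Dv X (nab Γ Y Y) y - Dv (nab Γ Y Y) X y -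
      nab Γ (fun z => Dv X Y z - Dv Y X z) Y y - nab Γ Y (fun z => Dv X Y z - Dv Y X z) y := by
  have dX := (diff_at H.hU hX hy).hasFDerivAt
  have dY := (diff_at H.hU hY hy).hasFDerivAt
  have dX2 := (diff_at H.hU (smooth_fderiv H.hU hX) hy).hasFDerivAt
  have dY2 := (diff_at H.hU (smooth_fderiv H.hU hY) hy).hasFDerivAt
  have dΓ := (diff_at H.hU H.sΓ hy).hasFDerivAt
  have hsym : IsSymmSndFDerivAt ℝ Y y :=
    (smooth_at H.hU hY hy).isSymmSndFDerivAt (by simp; exact WithTop.coe_le_coe.mpr le_top)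
  have e1 : Dv X (nab Γ Y Y) y = fderiv ℝ (fderiv ℝ Y) y (X y) (Y y) +
      fderiv ℝ Y y (fderiv ℝ Y y (X y)) + (fderiv ℝ Γ y (X y) (Y y) (Y y) +
        Γ y (fderiv ℝ Y y (X y)) (Y y) + Γ y (Y y) (fderiv ℝ Y y (X y))) := by
    have h := (dY2.clm_apply dY).add ((dΓ.clm_apply dY).clm_apply dY)
    have h2 : Dv X (nab Γ Y Y) y = _ := congrArg (fun L => L (X y)) h.fderiv
    rw [h2]
    simp only [add_apply, ContinuousLinearMap.comp_apply, ContinuousLinearMap.flip_apply]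
    abel
  have e2 : nab Γ Y (fun z => Dv X Y z - Dv Y X z) y =
      (fderiv ℝ (fderiv ℝ Y) y (Y y) (X y) + fderiv ℝ Y y (fderiv ℝ X y (Y y)) -
        (fderiv ℝ (fderiv ℝ X) y (Y y) (Y y) + fderiv ℝ X y (fderiv ℝ Y y (Y y)))) +
      Γ y (Y y) (fderiv ℝ Y y (X y) - fderiv ℝ X y (Y y)) := by
    have h := (dY2.clm_apply dX).sub (dX2.clm_apply dY)
    have h2 : Dv Y (fun z => Dv X Y z - Dv Y X z) y = _ := congrArg (fun L => L (Y y)) h.fderiv
    unfold nab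
    rw [h2]
    simp only [sub_apply, add_apply, ContinuousLinearMap.comp_apply,
      ContinuousLinearMap.flip_apply, Dv]
    abel
  rw [e1, e2]
  unfold LieΓ
  have s1 := hsym.eq (X y) (Y y)
  have s2 := H.symΓ y hy (Y y) (fderiv ℝ Y y (X y))
  have s3 := H.symΓ y hy (Y y) (fderiv ℝ X y (Y y))
  simp only [nab, Dv, map_add, map_sub, sub_apply]
  rw [s1, s2, s3, two_smul]
  abel

end Data

end Pool.Agent.H77.PF
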