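import Pool.Agent.H77.PF.Frame

/-!
# The structure functions of the frame are constant
-/

namespace Pool.Agent.H77.PF

open Set
open scoped ContDiff

variable {E F : Type*} [NormedAddCommGroup E] [NormedSpace ℝ E] [NormedAddCommGroup F]
  [NormedSpace ℝ F]

lemma Dv_left {X1 X2 : E → E} {p q : E → ℝ} {f : E → F} {y : E} :
    Dv (cmb X1 X2 p q) f y = p y • Dv X1 f y + q y • Dv X2 f y := by
  unfold Dv cmb
  rw [map_add, map_smul, map_smul]

lemma Dv_congr_left {X X' : E → E} {f : E → F} {y : E} (h : X y = X' y) :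
    Dv X f y = Dv X' f y := by
  unfold Dv; rw [h]

lemma nab_congr_left {Γ : E → E →L[ℝ] E →L[ℝ] E} {X X' Z : E → E} {y : E} (h : X y = X' y) :
    nab Γ X Z y = nab Γ X' Z y := by
  unfold nab Dv; rw [h]

lemma nab_congr {Γ : E → E →L[ℝ] E →L[ℝ] E} {U : Set E} (hU : IsOpen U) {X Z Z' : E → E}
    (h : EqOn Z Z' U) {y : E} (hy : y ∈ U) : nab Γ X Z y = nab Γ X Z' y := by
  unfold nab
  rw [Dv_congr hU h hy, h hy]

section
variable {U : Set E} (hU : IsOpen U) {X : E → E} {p q : E → ℝ}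
include hU

lemma Dv_mul (hp : ContDiffOn ℝ ∞ p U) (hq : ContDiffOn ℝ ∞ q U) {y : E} (hy : y ∈ U) :
    Dv X (fun z => p z * q z) y = p y * Dv X q y + q y * Dv X p y := by
  have h := (diff_at hU hp hy).hasFDerivAt.mul (diff_at hU hq hy).hasFDerivAt
  unfold Dv
  rw [show (fun z => p z * q z) = p * q from rfl, h.fderiv]
  simp

lemma Dv_add (hp : ContDiffOn ℝ ∞ p U) (hq : ContDiffOn ℝ ∞ q U) {y : E} (hy : y ∈ U) :
    Dv X (fun z => p z + q z) y = Dv X p y + Dv X q y := by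
  have h := (diff_at hU hp hy).hasFDerivAt.add (diff_at hU hq hy).hasFDerivAt
  unfold Dv
  rw [show (fun z => p z + q z) = p + q from rfl, h.fderiv]
  simp

lemma Dv_sub (hp : ContDiffOn ℝ ∞ p U) (hq : ContDiffOn ℝ ∞ q U) {y : E} (hy : y ∈ U) :
    Dv X (fun z => p z - q z) y = Dv X p y - Dv X q y := by
  have h := (diff_at hU hp hy).hasFDerivAt.sub (diff_at hU hq hy).hasFDerivAt
  unfold Dv
  rw [show (fun z => p z - q z) = p - q from rfl, h.fderiv]
  simp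

lemma Dv_const_mul (hp : ContDiffOn ℝ ∞ p U) (c : ℝ) {y : E} (hy : y ∈ U) :
    Dv X (fun z => c * p z) y = c * Dv X p y := by
  rw [Dv_mul hU contDiffOn_const hp hy, Data.Dv_const_fun]
  ring

end

namespace Data
variable {U : Set E} {om : E →L[ℝ] E →L[ℝ] ℝ} {Γ : E → E →L[ℝ] E →L[ℝ] E}
  {g : E → E →L[ℝ] E →L[ℝ] ℝ} {K : E → ℝ} {X1 X2 : E → E} (H : Data U om Γ g K X1 X2)
include H

lemma om_cmb {y : E} {a b c d : ℝ} :
    om (a • X1 y + b • X2 y) (c • X1 y + d • X2 y) = (a * d - b * c) * om (X1 y) (X2 y) := by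
  have h := H.anti (X2 y) (X1 y)
  simp only [map_add, map_smul, add_apply, smul_apply, smul_eq_mul, H.alt]
  rw [h]
  ring

lemma proj_eq {y : E} (hy : y ∈ U) (b c : ℝ) :
    c * ((b * Dv X1 (fn1 om X1 X2) y + c * Dv X2 (fn1 om X1 X2) y) * c -
      (b * Dv X1 (fn2 om X1 X2) y + c * Dv X2 (fn2 om X1 X2) y) * b) = 0 := by
  have hU := H.hU
  set n1 := fn1 om X1 X2 with hn1
  set n2 := fn2 om X1 X2 with hn2
  set v1 := fv1 om Γ X1 X2 with hv1
  set v2 := fv2 om Γ X1 X2 with hv2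
  have sv1 : ContDiffOn ℝ ∞ v1 U := H.sv1
  have sv2 : ContDiffOn ℝ ∞ v2 U := H.sv2
  have sn1 : ContDiffOn ℝ ∞ n1 U := H.sn1
  have sn2 : ContDiffOn ℝ ∞ n2 U := H.sn2
  set Y : E → E := cmb X1 X2 (fun _ => b) (fun _ => c) with hY
  have hYs : ContDiffOn ℝ ∞ Y U := H.smooth_cmb contDiffOn_const contDiffOn_const
  set m : E → ℝ := fun z => 2 * (b * v1 z + c * v2 z) with hm
  have sbv : ContDiffOn ℝ ∞ (fun z => b * v1 z + c * v2 z) U :=
    (contDiffOn_const.mul sv1).add (contDiffOn_const.mul sv2)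
  have sm : ContDiffOn ℝ ∞ m U := contDiffOn_const.mul sbv
  have hL := H.lie_formula H.s1 hYs hy
  -- the bracket on U
  have hB : EqOn (fun z => Dv X1 Y z - Dv Y X1 z)
      (cmb X1 X2 (fun z => c * n1 z) (fun z => c * n2 z)) U := by
    intro z hz
    show Dv X1 Y z - Dv Y X1 z = (c * n1 z) • X1 z + (c * n2 z) • X2 z
    have h1 := H.bracket hz
    rw [hY, Dv_left, H.Dv_cmb contDiffOn_const contDiffOn_const hz, Dv_const_fun, Dv_const_fun]
    have h2 : Dv X1 X2 z = Dv X2 X1 z + (n1 z • X1 z + n2 z • X2 z) := by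
      rw [hn1, hn2, ← h1]; abel
    rw [h2]
    module
  have hYY : EqOn (nab Γ Y Y) (cmb X1 X2 (fun z => b * m z) (fun z => c * m z)) U := by
    intro z hz
    obtain ⟨t1, t2, t3, t4⟩ := H.table hz
    show nab Γ Y Y z = (b * m z) • X1 z + (c * m z) • X2 z
    rw [hY, nab_left, H.nab_const b c hz, H.nab_const b c hz, t1, t2, t3, t4, hm]
    simp only [← hv1, ← hv2, ← hn1, ← hn2]
    module
  obtain ⟨t1, t2, t3, t4⟩ := H.table hy
  rw [← hv1] at t1
  rw [← hv2] at t2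
  rw [← hv1, ← hv2, ← hn1, ← hn2] at t3 t4
  have h1 : Dv X1 (nab Γ Y Y) y = (b * Dv X1 m y) • X1 y + (b * m y) • Dv X1 X1 y +
      ((c * Dv X1 m y) • X2 y + (c * m y) • Dv X1 X2 y) := by
    rw [Dv_congr hU hYY hy, H.Dv_cmb (contDiffOn_const.mul sm) (contDiffOn_const.mul sm) hy,
      Dv_const_mul hU sm b hy, Dv_const_mul hU sm c hy]
  have h2 : Dv (nab Γ Y Y) X1 y = (b * m y) • Dv X1 X1 y + (c * m y) • Dv X2 X1 y := by
    rw [Dv_congr_left (hYY hy), Dv_left]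
  have h3 : nab Γ (fun z => Dv X1 Y z - Dv Y X1 z) Y y =
      (c * n1 y) • (b • nab Γ X1 X1 y + c • nab Γ X1 X2 y) +
      (c * n2 y) • (b • nab Γ X2 X1 y + c • nab Γ X2 X2 y) := by
    rw [nab_congr_left (hB hy), nab_left, hY, H.nab_const b c hy, H.nab_const b c hy]
  have h4 : nab Γ Y (fun z => Dv X1 Y z - Dv Y X1 z) y =
      (c * (b * Dv X1 n1 y + c * Dv X2 n1 y)) • X1 y +
      (c * n1 y) • (b • nab Γ X1 X1 y + c • nab Γ X2 X1 y) +
      ((c * (b * Dv X1 n2 y + c * Dv X2 n2 y)) • X2 y +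
      (c * n2 y) • (b • nab Γ X1 X2 y + c • nab Γ X2 X2 y)) := by
    rw [nab_congr hU hB hy, H.nab_cmb (contDiffOn_const.mul sn1) (contDiffOn_const.mul sn2) hy,
      Dv_const_mul hU sn1 c hy, Dv_const_mul hU sn2 c hy, hY, Dv_left, Dv_left, nab_left, nab_left]
    rfl
  have h5 : Dv X1 X2 y = Dv X2 X1 y + (n1 y • X1 y + n2 y • X2 y) := by
    rw [hn1, hn2, ← H.bracket hy]; abel
  have hpr := H.proj y hy (Y y)
  have hYy : Y y = b • X1 y + c • X2 y := rfl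
  have hmy : m y = 2 * (b * v1 y + c * v2 y) := rfl
  have hform : LieΓ Γ X1 y (Y y) =
      (b * Dv X1 m y + c * m y * n1 y -
        (c * n1 y * (4 * b * v1 y + 2 * c * v2 y) + c * n2 y * (2 * b * v2 y)) -
        c * (b * Dv X1 n1 y + c * Dv X2 n1 y)) • X1 y +
      (c * Dv X1 m y + c * m y * n2 y -
        (c * n1 y * (2 * c * v1 y) + c * n2 y * (2 * b * v1 y + 4 * c * v2 y)) -
        c * (b * Dv X1 n2 y + c * Dv X2 n2 y)) • X2 y := by
    rw [hL, h1, h2, h3, h4, t1, t2, t3, t4, h5]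
    module
  rw [hform, hYy, H.om_cmb] at hpr
  have hpr2 := (mul_eq_zero.mp hpr).resolve_right (H.ind y hy)
  rw [hmy] at hpr2
  linear_combination -hpr2

/-- the four derivatives of the structure functions -/
lemma dn {y : E} (hy : y ∈ U) : Dv X2 (fn1 om X1 X2) y = 0 ∧ Dv X1 (fn2 om X1 X2) y = 0 ∧
    Dv X1 (fn1 om X1 X2) y = Dv X2 (fn2 om X1 X2) y := by
  have a1 := H.proj_eq hy 0 1
  have a2 := H.proj_eq hy 1 1
  have a3 := H.proj_eq hy (-1) 1
  refine ⟨by linarith, by linarith, by linarith⟩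

/-- `f = X1 n1 = X2 n2` vanishes -/
lemma f_zero {y : E} (hy : y ∈ U) : Dv X1 (fn1 om X1 X2) y = 0 := by
  have hU := H.hU
  set n1 := fn1 om X1 X2 with hn1
  set n2 := fn2 om X1 X2 with hn2
  have sn1 : ContDiffOn ℝ ∞ n1 U := H.sn1
  have sn2 : ContDiffOn ℝ ∞ n2 U := H.sn2
  set f : E → ℝ := Dv X1 n1 with hf
  have sf : ContDiffOn ℝ ∞ f U := smooth_Dv hU H.s1 sn1
  -- commutator acting on functions
  have hc : ∀ (p : E → ℝ), ContDiffOn ℝ ∞ p U → ∀ z ∈ U,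
      Dv X1 (Dv X2 p) z - Dv X2 (Dv X1 p) z = n1 z * Dv X1 p z + n2 z * Dv X2 p z := by
    intro p hp z hz
    rw [Dv_comm hU H.s1 H.s2 hp hz, H.bracket hz, map_add, map_smul, map_smul]
    rfl
  have z1 : ∀ z ∈ U, Dv X2 n1 z = 0 := fun z hz => (H.dn hz).1
  have z2 : ∀ z ∈ U, Dv X1 n2 z = 0 := fun z hz => (H.dn hz).2.1
  have z3 : ∀ z ∈ U, Dv X2 n2 z = f z := fun z hz => ((H.dn hz).2.2).symm
  have e1 : ∀ z ∈ U, Dv X2 f z = -(n1 z * f z) := by
    intro z hz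
    have h := hc n1 sn1 z hz
    have h2 : Dv X1 (Dv X2 n1) z = 0 := by
      rw [Dv_congr hU (g := fun _ => (0:ℝ)) (fun w hw => z1 w hw) hz, Dv_const_fun]
    rw [h2, z1 z hz] at h
    have h3 : Dv X1 n1 z = f z := rfl
    rw [h3] at h
    linarith
  have e2 : ∀ z ∈ U, Dv X1 f z = n2 z * f z := by
    intro z hz
    have h := hc n2 sn2 z hz
    have h2 : Dv X2 (Dv X1 n2) z = 0 := by
      rw [Dv_congr hU (g := fun _ => (0:ℝ)) (fun w hw => z2 w hw) hz, Dv_const_fun]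
    have h3 : Dv X1 (Dv X2 n2) z = Dv X1 f z := Dv_congr hU (fun w hw => z3 w hw) hz
    rw [h2, h3, z2 z hz, z3 z hz] at h
    linarith
  have h := hc f sf y hy
  have h1 : Dv X1 (Dv X2 f) y = -(n1 y * Dv X1 f y + f y * Dv X1 n1 y) := by
    rw [Dv_congr hU (g := fun z => (-1) * (n1 z * f z)) (fun w hw => by
      show Dv X2 f w = (-1) * (n1 w * f w)
      rw [e1 w hw]; ring) hy, Dv_const_mul hU (sn1.mul sf) (-1) hy, Dv_mul hU sn1 sf hy]
    ring
  have h2 : Dv X2 (Dv X1 f) y = n2 y * Dv X2 f y + f y * Dv X2 n2 y := by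
    rw [Dv_congr hU (g := fun z => n2 z * f z) (fun w hw => e2 w hw) hy, Dv_mul hU sn2 sf hy]
  have h3 : Dv X1 n1 y = f y := rfl
  rw [h1, h2, e1 y hy, e2 y hy, z3 y hy, h3] at h
  have h4 : f y * f y = 0 := by linarith
  exact mul_self_eq_zero.mp h4

end Data

end Pool.Agent.H77.PF
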