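import Pool.Agent.H77.PF.Final

/-!
# From geodesic families through the blocking point to the two conditions

`curve_conditions`: moving `x` and `y` along a geodesic keeps `z (x, y)` on it; first and second
order consequences. `inj_or_zero`: three directions. `condAB`: four directions.
-/

namespace Pool.Agent.H77.PF

open Set Filter Topology
open scoped ContDiff

variable {E : Type*} [NormedAddCommGroup E] [NormedSpace ℝ E]

section curve
variable {W : Set (E × E)} (hW : IsOpen W) {z : E × E → E} (sz : ContDiffOn ℝ ∞ z W)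
  {x0 y0 : E} (hp : (x0, y0) ∈ W) {al be ga : ℝ → E} {tau : ℝ × ℝ → ℝ}
  (hal : ContDiffAt ℝ 2 al 0) (hbe : ContDiffAt ℝ 2 be 0) (hga : ContDiffAt ℝ 2 ga 0)
  (htau : ContDiffAt ℝ 2 tau (0, 0)) (al0 : al 0 = x0) (be0 : be 0 = y0) (tau0 : tau (0, 0) = 0)
  (h : ∀ᶠ q in 𝓝 ((0, 0) : ℝ × ℝ), z (al q.1, be q.2) = ga (tau q))

lemma ev_deriv {f : ℝ → E} (hf : ContDiffAt ℝ 2 f 0) :
    ∀ᶠ t in 𝓝 (0:ℝ), HasDerivAt f (deriv f t) t := by
  have h1 : ∀ᶠ t in 𝓝 (0:ℝ), ContDiffAt ℝ 2 f t := hf.eventually (by simp)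
  filter_upwards [h1] with t ht
  exact (ht.differentiableAt (by norm_num)).hasDerivAt

lemma deriv2 {f : ℝ → E} (hf : ContDiffAt ℝ 2 f 0) :
    HasDerivAt (deriv f) (deriv (deriv f) 0) 0 := by
  have h1 : ContDiffAt ℝ 1 (fderiv ℝ f) 0 := hf.fderiv_right (by norm_num)
  have h2 : ContDiffAt ℝ 1 (fun t => fderiv ℝ f t 1) 0 := h1.clm_apply contDiffAt_const
  have h3 : (fun t => fderiv ℝ f t 1) = deriv f := by
    funext t; exact fderiv_apply_one_eq_deriv
  rw [h3] at h2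
  exact (h2.differentiableAt (by norm_num)).hasDerivAt

lemma ev_fderiv {f : ℝ × ℝ → ℝ} (hf : ContDiffAt ℝ 2 f (0, 0)) :
    ∀ᶠ q in 𝓝 ((0, 0) : ℝ × ℝ), HasFDerivAt f (fderiv ℝ f q) q := by
  have h1 : ∀ᶠ t in 𝓝 ((0, 0) : ℝ × ℝ), ContDiffAt ℝ 2 f t := hf.eventually (by simp)
  filter_upwards [h1] with t ht
  exact (ht.differentiableAt (by norm_num)).hasFDerivAt

lemma fderiv2 {f : ℝ × ℝ → ℝ} (hf : ContDiffAt ℝ 2 f (0, 0)) :
    HasFDerivAt (fderiv ℝ f) (fderiv ℝ (fderiv ℝ f) (0, 0)) (0, 0) := by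
  have h1 : ContDiffAt ℝ 1 (fderiv ℝ f) (0, 0) := hf.fderiv_right (by norm_num)
  exact (h1.differentiableAt (by norm_num)).hasFDerivAt

include hW sz hp hal hbe hga htau al0 be0 tau0 h

lemma ev_first : ∀ᶠ q in 𝓝 ((0, 0) : ℝ × ℝ),
    fderiv ℝ z (al q.1, be q.2) (0, deriv be q.2) = fderiv ℝ tau q (0, 1) • deriv ga (tau q) ∧
    fderiv ℝ z (al q.1, be q.2) (deriv al q.1, 0) = fderiv ℝ tau q (1, 0) • deriv ga (tau q) := by
  have c1 : ContinuousAt (fun q : ℝ × ℝ => (al q.1, be q.2)) (0, 0) := by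
    apply ContinuousAt.prodMk
    · exact ContinuousAt.comp (f := Prod.fst) (g := al) hal.continuousAt continuousAt_fst
    · exact ContinuousAt.comp (f := Prod.snd) (g := be) hbe.continuousAt continuousAt_snd
  have c2 : ContinuousAt tau (0, 0) := htau.continuousAt
  have e1 : ∀ᶠ q in 𝓝 ((0, 0) : ℝ × ℝ), (al q.1, be q.2) ∈ W := by
    apply c1.preimage_mem_nhds
    show W ∈ 𝓝 (al 0, be 0)
    rw [al0, be0]
    exact hW.mem_nhds hp
  have e2 : ∀ᶠ q in 𝓝 ((0, 0) : ℝ × ℝ), HasDerivAt be (deriv be q.2) q.2 :=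
    (continuousAt_snd (p := ((0:ℝ), (0:ℝ)))).eventually (ev_deriv hbe)
  have e3 : ∀ᶠ q in 𝓝 ((0, 0) : ℝ × ℝ), HasDerivAt al (deriv al q.1) q.1 :=
    (continuousAt_fst (p := ((0:ℝ), (0:ℝ)))).eventually (ev_deriv hal)
  have e4 : ∀ᶠ q in 𝓝 ((0, 0) : ℝ × ℝ), HasDerivAt ga (deriv ga (tau q)) (tau q) := by
    have h9 : ∀ᶠ r in 𝓝 (tau (0, 0)), HasDerivAt ga (deriv ga r) r := by
      rw [tau0]
      exact ev_deriv hga
    exact c2.eventually h9
  filter_upwards [h.eventually_nhds, e1, e2, e3, e4, ev_fderiv htau] with q hq h1 h2 h3 h4 h5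
  have hz := (diff_at hW sz h1).hasFDerivAt
  constructor
  · -- the `t` direction
    have a1 : HasDerivAt (fun t => (al q.1, be t)) ((0:E), deriv be q.2) q.2 :=
      (hasDerivAt_const q.2 (al q.1)).prodMk h2
    have a2 : HasDerivAt (fun t => z (al q.1, be t)) (fderiv ℝ z (al q.1, be q.2)
        (0, deriv be q.2)) q.2 := HasFDerivAt.comp_hasDerivAt q.2 hz a1
    have b1 : HasDerivAt (fun t => (q.1, t)) ((0:ℝ), (1:ℝ)) q.2 :=
      (hasDerivAt_const q.2 q.1).prodMk (hasDerivAt_id q.2)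
    have b2 : HasDerivAt (fun t => tau (q.1, t)) (fderiv ℝ tau q (0, 1)) q.2 :=
      HasFDerivAt.comp_hasDerivAt (f := fun t => (q.1, t)) q.2 h5 b1
    have b3 : HasDerivAt (fun t => ga (tau (q.1, t)))
        (fderiv ℝ tau q (0, 1) • deriv ga (tau q)) q.2 :=
      HasDerivAt.scomp (h := fun t => tau (q.1, t)) q.2 h4 b2
    have c3 : ContinuousAt (fun t : ℝ => ((q.1, t) : ℝ × ℝ)) q.2 := by fun_prop
    have hev : (fun t => z (al q.1, be t)) =ᶠ[𝓝 q.2] (fun t => ga (tau (q.1, t))) :=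
      c3.eventually hq
    exact a2.unique (b3.congr_of_eventuallyEq hev)
  · have a1 : HasDerivAt (fun s => (al s, be q.2)) (deriv al q.1, (0:E)) q.1 :=
      h3.prodMk (hasDerivAt_const q.1 (be q.2))
    have a2 : HasDerivAt (fun s => z (al s, be q.2)) (fderiv ℝ z (al q.1, be q.2)
        (deriv al q.1, 0)) q.1 := HasFDerivAt.comp_hasDerivAt q.1 hz a1
    have b1 : HasDerivAt (fun s => (s, q.2)) ((1:ℝ), (0:ℝ)) q.1 :=
      (hasDerivAt_id q.1).prodMk (hasDerivAt_const q.1 q.2)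
    have b2 : HasDerivAt (fun s => tau (s, q.2)) (fderiv ℝ tau q (1, 0)) q.1 :=
      HasFDerivAt.comp_hasDerivAt (f := fun s => (s, q.2)) q.1 h5 b1
    have b3 : HasDerivAt (fun s => ga (tau (s, q.2)))
        (fderiv ℝ tau q (1, 0) • deriv ga (tau q)) q.1 :=
      HasDerivAt.scomp (h := fun s => tau (s, q.2)) q.1 h4 b2
    have c3 : ContinuousAt (fun s : ℝ => ((s, q.2) : ℝ × ℝ)) q.1 := by fun_prop
    have hev : (fun s => z (al s, be q.2)) =ᶠ[𝓝 q.1] (fun s => ga (tau (s, q.2))) :=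
      c3.eventually hq
    exact a2.unique (b3.congr_of_eventuallyEq hev)

/-- First and second order consequences. -/
theorem curve_conditions :
    fderiv ℝ z (x0, y0) (0, deriv be 0) = fderiv ℝ tau (0, 0) (0, 1) • deriv ga 0 ∧
    fderiv ℝ z (x0, y0) (deriv al 0, 0) = fderiv ℝ tau (0, 0) (1, 0) • deriv ga 0 ∧
    fderiv ℝ (fderiv ℝ z) (x0, y0) (0, deriv be 0) (0, deriv be 0) +
      fderiv ℝ z (x0, y0) (0, deriv (deriv be) 0) =
      fderiv ℝ (fderiv ℝ tau) (0, 0) (0, 1) (0, 1) • deriv ga 0 +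
      (fderiv ℝ tau (0, 0) (0, 1) * fderiv ℝ tau (0, 0) (0, 1)) • deriv (deriv ga) 0 ∧
    fderiv ℝ (fderiv ℝ z) (x0, y0) (deriv al 0, 0) (0, deriv be 0) =
      fderiv ℝ (fderiv ℝ tau) (0, 0) (1, 0) (0, 1) • deriv ga 0 +
      (fderiv ℝ tau (0, 0) (0, 1) * fderiv ℝ tau (0, 0) (1, 0)) • deriv (deriv ga) 0 := by
  have hev := ev_first hW sz hp hal hbe hga htau al0 be0 tau0 h
  have h0 := hev.self_of_nhds
  simp only [al0, be0, tau0] at h0
  have hD : HasFDerivAt (fderiv ℝ z) (fderiv ℝ (fderiv ℝ z) (x0, y0)) (x0, y0) :=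
    (diff_at hW (smooth_fderiv hW sz) hp).hasFDerivAt
  have dal : HasDerivAt al (deriv al 0) 0 := (ev_deriv hal).self_of_nhds
  have dbe : HasDerivAt be (deriv be 0) 0 := (ev_deriv hbe).self_of_nhds
  have dbe2 := deriv2 hbe
  have dga2 := deriv2 hga
  have dtau : HasFDerivAt tau (fderiv ℝ tau (0, 0)) (0, 0) := (ev_fderiv htau).self_of_nhds
  have dtau2 := fderiv2 htau
  refine ⟨h0.1, h0.2, ?_, ?_⟩
  · have a0 : HasDerivAt (fun t => ((x0, be t) : E × E)) ((0:E), deriv be 0) 0 :=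
      (hasDerivAt_const (0:ℝ) x0).prodMk dbe
    have hD' : HasFDerivAt (fderiv ℝ z) (fderiv ℝ (fderiv ℝ z) (x0, y0)) (x0, be 0) := by
      rw [be0]; exact hD
    have a1 : HasDerivAt (fun t => fderiv ℝ z (x0, be t))
        (fderiv ℝ (fderiv ℝ z) (x0, y0) (0, deriv be 0)) 0 :=
      HasFDerivAt.comp_hasDerivAt (f := fun t => ((x0, be t) : E × E)) 0 hD' a0
    have a2 : HasDerivAt (fun t => ((0, deriv be t) : E × E)) ((0:E), deriv (deriv be) 0) 0 :=
      (hasDerivAt_const (0:ℝ) (0:E)).prodMk dbe2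
    have a3 := a1.clm_apply a2
    have b0 : HasDerivAt (fun t => (((0:ℝ), t) : ℝ × ℝ)) ((0:ℝ), (1:ℝ)) 0 :=
      (hasDerivAt_const (0:ℝ) (0:ℝ)).prodMk (hasDerivAt_id (0:ℝ))
    have b1 : HasDerivAt (fun t => tau ((0:ℝ), t)) (fderiv ℝ tau (0, 0) (0, 1)) 0 :=
      HasFDerivAt.comp_hasDerivAt (f := fun t => (((0:ℝ), t) : ℝ × ℝ)) 0 dtau b0
    have b2 : HasDerivAt (fun t => fderiv ℝ tau ((0:ℝ), t))
        (fderiv ℝ (fderiv ℝ tau) (0, 0) (0, 1)) 0 :=
      HasFDerivAt.comp_hasDerivAt (f := fun t => (((0:ℝ), t) : ℝ × ℝ)) 0 dtau2 b0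
    have b3 : HasDerivAt (fun t => fderiv ℝ tau ((0:ℝ), t) (0, 1))
        (fderiv ℝ (fderiv ℝ tau) (0, 0) (0, 1) (0, 1)) 0 := by
      simpa using b2.clm_apply (hasDerivAt_const (0:ℝ) (((0:ℝ), (1:ℝ)) : ℝ × ℝ))
    have dga2' : HasDerivAt (deriv ga) (deriv (deriv ga) 0) (tau ((0:ℝ), (0:ℝ))) := by
      rw [tau0]; exact dga2
    have b4 : HasDerivAt (fun t => deriv ga (tau ((0:ℝ), t)))
        (fderiv ℝ tau (0, 0) (0, 1) • deriv (deriv ga) 0) 0 :=
      HasDerivAt.scomp (h := fun t => tau ((0:ℝ), t)) (0:ℝ) dga2' b1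
    have b5 := b3.smul b4
    have c3 : ContinuousAt (fun t : ℝ => (((0:ℝ), t) : ℝ × ℝ)) 0 := by fun_prop
    have hev2 : (fun t => fderiv ℝ z (x0, be t) (0, deriv be t)) =ᶠ[𝓝 0]
        ((fun t => fderiv ℝ tau ((0:ℝ), t) (0, 1)) • fun t => deriv ga (tau ((0:ℝ), t))) := by
      have := c3.eventually hev
      filter_upwards [this] with t ht
      rw [al0] at ht
      exact ht.1
    have h1 := a3.unique (b5.congr_of_eventuallyEq hev2)
    rw [be0, tau0] at h1
    rw [h1, smul_smul, add_comm]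
  · have a0 : HasDerivAt (fun s => ((al s, y0) : E × E)) (deriv al 0, (0:E)) 0 :=
      dal.prodMk (hasDerivAt_const (0:ℝ) y0)
    have hD' : HasFDerivAt (fderiv ℝ z) (fderiv ℝ (fderiv ℝ z) (x0, y0)) (al 0, y0) := by
      rw [al0]; exact hD
    have a1 : HasDerivAt (fun s => fderiv ℝ z (al s, y0))
        (fderiv ℝ (fderiv ℝ z) (x0, y0) (deriv al 0, 0)) 0 :=
      HasFDerivAt.comp_hasDerivAt (f := fun s => ((al s, y0) : E × E)) 0 hD' a0
    have a3 : HasDerivAt (fun s => fderiv ℝ z (al s, y0) (0, deriv be 0))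
        (fderiv ℝ (fderiv ℝ z) (x0, y0) (deriv al 0, 0) (0, deriv be 0)) 0 := by
      simpa using a1.clm_apply (hasDerivAt_const (0:ℝ) (((0:E), deriv be 0) : E × E))
    have b0 : HasDerivAt (fun s => ((s, (0:ℝ)) : ℝ × ℝ)) ((1:ℝ), (0:ℝ)) 0 :=
      (hasDerivAt_id (0:ℝ)).prodMk (hasDerivAt_const (0:ℝ) (0:ℝ))
    have b1 : HasDerivAt (fun s => tau (s, (0:ℝ))) (fderiv ℝ tau (0, 0) (1, 0)) 0 :=
      HasFDerivAt.comp_hasDerivAt (f := fun s => ((s, (0:ℝ)) : ℝ × ℝ)) 0 dtau b0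
    have b2 : HasDerivAt (fun s => fderiv ℝ tau (s, (0:ℝ)))
        (fderiv ℝ (fderiv ℝ tau) (0, 0) (1, 0)) 0 :=
      HasFDerivAt.comp_hasDerivAt (f := fun s => ((s, (0:ℝ)) : ℝ × ℝ)) 0 dtau2 b0
    have b3 : HasDerivAt (fun s => fderiv ℝ tau (s, (0:ℝ)) (0, 1))
        (fderiv ℝ (fderiv ℝ tau) (0, 0) (1, 0) (0, 1)) 0 := by
      simpa using b2.clm_apply (hasDerivAt_const (0:ℝ) (((0:ℝ), (1:ℝ)) : ℝ × ℝ))
    have dga2' : HasDerivAt (deriv ga) (deriv (deriv ga) 0) (tau ((0:ℝ), (0:ℝ))) := by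
      rw [tau0]; exact dga2
    have b4 : HasDerivAt (fun s => deriv ga (tau (s, (0:ℝ))))
        (fderiv ℝ tau (0, 0) (1, 0) • deriv (deriv ga) 0) 0 :=
      HasDerivAt.scomp (h := fun s => tau (s, (0:ℝ))) (0:ℝ) dga2' b1
    have b5 := b3.smul b4
    have c3 : ContinuousAt (fun s : ℝ => ((s, (0:ℝ)) : ℝ × ℝ)) 0 := by fun_prop
    have hev2 : (fun s => fderiv ℝ z (al s, y0) (0, deriv be 0)) =ᶠ[𝓝 0]
        ((fun s => fderiv ℝ tau (s, (0:ℝ)) (0, 1)) • fun s => deriv ga (tau (s, (0:ℝ)))) := by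
      have := c3.eventually hev
      filter_upwards [this] with s hs
      rw [be0] at hs
      exact hs.1
    have h1 := a3.unique (b5.congr_of_eventuallyEq hev2)
    rw [tau0] at h1
    rw [h1, smul_smul, add_comm]

/-- The same with the geodesic equations. -/
theorem geodesic_conditions {G G' : E →L[ℝ] E →L[ℝ] E}
    (hbe2 : deriv (deriv be) 0 = -G (deriv be 0) (deriv be 0))
    (hga2 : deriv (deriv ga) 0 = -G' (deriv ga 0) (deriv ga 0)) :
    ∃ l m r s : ℝ, fderiv ℝ z (x0, y0) (0, deriv be 0) = l • deriv ga 0 ∧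
    fderiv ℝ z (x0, y0) (deriv al 0, 0) = m • deriv ga 0 ∧
    fderiv ℝ (fderiv ℝ z) (x0, y0) (0, deriv be 0) (0, deriv be 0) +
      G' (fderiv ℝ z (x0, y0) (0, deriv be 0)) (fderiv ℝ z (x0, y0) (0, deriv be 0)) -
      fderiv ℝ z (x0, y0) (0, G (deriv be 0) (deriv be 0)) = r • deriv ga 0 ∧
    fderiv ℝ (fderiv ℝ z) (x0, y0) (deriv al 0, 0) (0, deriv be 0) +
      G' (fderiv ℝ z (x0, y0) (deriv al 0, 0)) (fderiv ℝ z (x0, y0) (0, deriv be 0)) =
      s • deriv ga 0 := by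
  obtain ⟨e1, e2, e3, e4⟩ := curve_conditions hW sz hp hal hbe hga htau al0 be0 tau0 h
  refine ⟨fderiv ℝ tau (0, 0) (0, 1), fderiv ℝ tau (0, 0) (1, 0),
    fderiv ℝ (fderiv ℝ tau) (0, 0) (0, 1) (0, 1), fderiv ℝ (fderiv ℝ tau) (0, 0) (1, 0) (0, 1),
    e1, e2, ?_, ?_⟩
  · rw [hbe2, hga2] at e3
    have h1 : ((0, -G (deriv be 0) (deriv be 0)) : E × E) = -(0, G (deriv be 0) (deriv be 0)) := by
      simp
    rw [h1, map_neg] at e3
    rw [e1]
    simp only [map_smul, smul_apply, smul_smul]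
    rw [← sub_eq_add_neg] at e3
    rw [add_sub_right_comm, e3, smul_neg, neg_add_cancel_right]
  · rw [hga2] at e4
    rw [e1, e2, e4]
    simp only [map_smul, smul_apply, smul_smul, smul_neg]
    rw [mul_comm (fderiv ℝ tau (0, 0) (0, 1)), neg_add_cancel_right]

end curve

section algebra
variable {om : E →L[ℝ] E →L[ℝ] ℝ} (alt : ∀ v, om v v = 0)
  (cr : ∀ u v w, om u v • w = om w v • u + om u w • v) {e1 e2 : E} (he : om e1 e2 ≠ 0)
include alt cr he

/-- a linear map which maps three different directions to three different directions is injective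
or zero -/
lemma inj_or_zero (B : E →L[ℝ] E) (e c : Fin 3 → E) (l : Fin 3 → ℝ)
    (hB : ∀ k, B (e k) = l k • c k) (hee : ∀ i j, i ≠ j → om (e i) (e j) ≠ 0)
    (hcc : ∀ i j, i ≠ j → om (c i) (c j) ≠ 0) : B = 0 ∨ om (B e1) (B e2) ≠ 0 := by
  by_cases h0 : om (B e1) (B e2) = 0
  · left
    have hdet : ∀ u v, om (B u) (B v) = 0 := by
      intro u v
      have h1 := om_map alt cr B e1 e2 u v
      rw [h0, zero_mul, mul_zero] at h1
      exact (mul_eq_zero.mp h1).resolve_left (pow_ne_zero 2 he)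
    have hl : ∀ i j, i ≠ j → l i = 0 ∨ l j = 0 := by
      intro i j hij
      have h1 := hdet (e i) (e j)
      rw [hB, hB] at h1
      simp only [map_smul, smul_apply, smul_eq_mul] at h1
      rcases mul_eq_zero.mp h1 with h2 | h2
      · exact Or.inr h2
      · rcases mul_eq_zero.mp h2 with h3 | h3
        · exact Or.inl h3
        · exact absurd h3 (hcc i j hij)
    have hzz : ∀ i j, i ≠ j → l i = 0 → l j = 0 → B = 0 := by
      intro i j hij hi hj
      ext w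
      have h1 := congrArg B (cr (e i) (e j) w)
      rw [map_add, map_smul, map_smul, map_smul, hB, hB, hi, hj] at h1
      simp only [zero_smul, smul_zero, add_zero] at h1
      exact (smul_eq_zero.mp h1).resolve_left (hee i j hij)
    rcases hl 0 1 (by decide) with h1 | h1
    · rcases hl 1 2 (by decide) with h2 | h2
      · exact hzz 0 1 (by decide) h1 h2
      · exact hzz 0 2 (by decide) h1 h2
    · rcases hl 0 2 (by decide) with h2 | h2
      · exact hzz 0 1 (by decide) h2 h1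
      · exact hzz 1 2 (by decide) h1 h2
  · right; exact h0

/-- the two conditions from four geodesics -/
theorem condAB (hfin : Module.finrank ℝ E = 2) (A B : E →L[ℝ] E) (hA : om (A e1) (A e2) ≠ 0)
    (hBi : om (B e1) (B e2) ≠ 0) (Qa Mb : E →L[ℝ] E →L[ℝ] E) (e a c : Fin 4 → E)
    (l m r s : Fin 4 → ℝ) (hB : ∀ k, B (e k) = l k • c k) (hAk : ∀ k, A (a k) = m k • c k)
    (hQ : ∀ k, Qa (e k) (e k) = r k • c k) (hM : ∀ k, Mb (a k) (e k) = s k • c k)
    (hee : ∀ i j, i ≠ j → om (e i) (e j) ≠ 0) (hak : ∀ k, a k ≠ 0) :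
    (∀ v, om (Qa v v) (B v) = 0) ∧ (∀ a' u, B u = A a' → om (Mb a' u) (A a') = 0) := by
  have : FiniteDimensional ℝ E := FiniteDimensional.of_finrank_pos (by omega)
  have injB : Function.Injective B := by
    rw [injective_iff_map_eq_zero]
    intro w hw
    have h1 : ∀ u, om u w = 0 := fun u =>
      om_map_zero alt cr B he hBi (by rw [hw, map_zero])
    have h2 := cr e1 e2 w
    rw [anti_of alt w e2, h1, h1, neg_zero, zero_smul, zero_smul, add_zero] at h2
    exact (smul_eq_zero.mp h2).resolve_left he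
  have injA : Function.Injective A := by
    rw [injective_iff_map_eq_zero]
    intro w hw
    have h1 : ∀ u, om u w = 0 := fun u =>
      om_map_zero alt cr A he hA (by rw [hw, map_zero])
    have h2 := cr e1 e2 w
    rw [anti_of alt w e2, h1, h1, neg_zero, zero_smul, zero_smul, add_zero] at h2
    exact (smul_eq_zero.mp h2).resolve_left he
  have hek : ∀ k, e k ≠ 0 := by
    intro k h0
    have : ∃ j, k ≠ j := by
      fin_cases k
      · exact ⟨1, by decide⟩
      · exact ⟨0, by decide⟩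
      · exact ⟨0, by decide⟩
      · exact ⟨0, by decide⟩
    obtain ⟨j, hj⟩ := this
    apply hee k j hj
    rw [h0]; simp
  have hlk : ∀ k, l k ≠ 0 := by
    intro k h0
    apply hek k
    apply injB
    rw [hB, h0, zero_smul, map_zero]
  have hmk : ∀ k, m k ≠ 0 := by
    intro k h0
    apply hak k
    apply injA
    rw [hAk, h0, zero_smul, map_zero]
  refine ⟨?_, ?_⟩
  · intro v
    apply cubic_zero alt cr Qa B e hee
    intro k
    rw [hQ, hB]
    simp only [map_smul, smul_apply, alt, smul_zero]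
  · -- the inverse of `B`
    let Bl : E ≃ₗ[ℝ] E := LinearEquiv.ofInjectiveEndo B.toLinearMap injB
    let Bi : E →L[ℝ] E := LinearMap.toContinuousLinearMap Bl.symm.toLinearMap
    have hBi1 : ∀ w, Bi (B w) = w := fun w => Bl.symm_apply_apply w
    have hac : ∀ i j, i ≠ j → om (a i) (a j) ≠ 0 := by
      intro i j hij h0
      have h1 := om_map alt cr A e1 e2 (a i) (a j)
      rw [h0, mul_zero, mul_zero, hAk, hAk] at h1
      have h2 := (mul_eq_zero.mp h1).resolve_left (pow_ne_zero 2 he)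
      simp only [map_smul, smul_apply, smul_eq_mul] at h2
      have h3 : om (c i) (c j) = 0 := by
        have := (mul_eq_zero.mp h2).resolve_left (hmk j)
        exact (mul_eq_zero.mp this).resolve_left (hmk i)
      apply hee i j hij
      apply om_map_zero alt cr B he hBi
      rw [hB, hB]
      simp only [map_smul, smul_apply, h3, smul_zero]
    have hq := cubic_zero alt cr (Mb.flip.comp (Bi.comp A)).flip A a hac (by
      intro k
      have h1 : (Mb.flip.comp (Bi.comp A)).flip (a k) (a k) = Mb (a k) (Bi (A (a k))) := rfl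
      have h2 : Bi (A (a k)) = (m k / l k) • e k := by
        have h3 : A (a k) = B ((m k / l k) • e k) := by
          rw [map_smul, hB, hAk, smul_smul, div_mul_cancel₀ _ (hlk k)]
        rw [h3, hBi1]
      rw [h1, h2, map_smul, hM, hAk]
      simp only [map_smul, smul_apply, alt, smul_zero])
    intro a' u hu
    have h1 := hq a'
    have h2 : (Mb.flip.comp (Bi.comp A)).flip a' a' = Mb a' (Bi (A a')) := rfl
    rw [h2, ← hu, hBi1] at h1
    rw [← hu]
    exact h1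

end algebra

end Pool.Agent.H77.PF
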