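import Pool.Agent.H77.PF.Sheet

/-!
# The plane `ℝ × ℝ`
-/

namespace Pool.Agent.H77.PF

open Set Filter Topology
open scoped ContDiff

/-- the area form of the plane -/
noncomputable def om0 : (ℝ × ℝ) →L[ℝ] (ℝ × ℝ) →L[ℝ] ℝ :=
  (ContinuousLinearMap.fst ℝ ℝ ℝ).smulRight (ContinuousLinearMap.snd ℝ ℝ ℝ) -
    (ContinuousLinearMap.snd ℝ ℝ ℝ).smulRight (ContinuousLinearMap.fst ℝ ℝ ℝ)

lemma om0_apply (u v : ℝ × ℝ) : om0 u v = u.1 * v.2 - u.2 * v.1 := rfl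

lemma om0_alt (v : ℝ × ℝ) : om0 v v = 0 := by rw [om0_apply]; ring

lemma om0_cr (u v w : ℝ × ℝ) : om0 u v • w = om0 w v • u + om0 u w • v := by
  rw [om0_apply, om0_apply, om0_apply]
  refine Prod.ext ?_ ?_
  · simp only [Prod.smul_fst, Prod.fst_add, smul_eq_mul]; ring
  · simp only [Prod.smul_snd, Prod.snd_add, smul_eq_mul]; ring

lemma om0_one : om0 (1, 0) (0, 1) = 1 := by rw [om0_apply]; norm_num

lemma om0_one_ne : om0 (1, 0) (0, 1) ≠ 0 := by rw [om0_one]; norm_num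

/-- parallel vectors -/
lemma om0_zero {u v : ℝ × ℝ} (h : om0 u v = 0) (hv : v ≠ 0) : ∃ c : ℝ, u = c • v := by
  rw [om0_apply] at h
  by_cases h1 : v.1 = 0
  · have h2 : v.2 ≠ 0 := by
      intro h2
      exact hv (Prod.ext h1 h2)
    refine ⟨u.2 / v.2, Prod.ext ?_ ?_⟩
    · rw [h1, mul_zero, sub_zero] at h
      have := (mul_eq_zero.mp h).resolve_right h2
      simp [this, h1]
    · simp only [Prod.smul_snd, smul_eq_mul]
      field_simp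
  · refine ⟨u.1 / v.1, Prod.ext ?_ ?_⟩
    · simp only [Prod.smul_fst, smul_eq_mul]
      field_simp
    · simp only [Prod.smul_snd, smul_eq_mul]
      field_simp
      linarith

lemma inj_of_om0 {L : (ℝ × ℝ) →L[ℝ] (ℝ × ℝ)} (h : om0 (L (1, 0)) (L (0, 1)) ≠ 0) :
    Function.Injective L := by
  rw [injective_iff_map_eq_zero]
  intro w hw
  have h1 : ∀ u, om0 u w = 0 := fun u =>
    om_map_zero om0_alt om0_cr L om0_one_ne h (by rw [hw, map_zero])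
  have a := h1 (1, 0)
  have b := h1 (0, 1)
  rw [om0_apply] at a b
  simp only at a b
  exact Prod.ext (by simpa using b) (by simpa using a)

lemma om0_of_inj {L : (ℝ × ℝ) →L[ℝ] (ℝ × ℝ)} (h : Function.Injective L) :
    om0 (L (1, 0)) (L (0, 1)) ≠ 0 := by
  intro h0
  have he2 : L (0, 1) ≠ 0 := by
    intro h1
    have := h (h1.trans (map_zero L).symm)
    simp at this
  obtain ⟨c, hc⟩ := om0_zero h0 he2
  have h1 : ((1:ℝ), (0:ℝ)) = c • ((0:ℝ), (1:ℝ)) := h (by rw [hc, map_smul])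
  have := congrArg Prod.fst h1
  simp at this

/-- A geodesic through `x`, `y` and `z (x, y)`, in charts: `al` near `x`, `be` near `y`, `ga` near
the blocking point. -/
structure Through (z : (ℝ × ℝ) × (ℝ × ℝ) → ℝ × ℝ) (p : (ℝ × ℝ) × (ℝ × ℝ))
    (G G' : (ℝ × ℝ) →L[ℝ] (ℝ × ℝ) →L[ℝ] ℝ × ℝ) (al be ga : ℝ → ℝ × ℝ) (tau : ℝ × ℝ → ℝ) :
    Prop where
  hal : ContDiffAt ℝ ∞ al 0
  hbe : ContDiffAt ℝ ∞ be 0
  hga : ContDiffAt ℝ ∞ ga 0
  htau : ContDiffAt ℝ ∞ tau (0, 0)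
  al0 : al 0 = p.1
  be0 : be 0 = p.2
  tau0 : tau (0, 0) = 0
  be2 : deriv (deriv be) 0 = -G (deriv be 0) (deriv be 0)
  ga2 : deriv (deriv ga) 0 = -G' (deriv ga 0) (deriv ga 0)
  al1 : deriv al 0 ≠ 0
  ev : ∀ᶠ q in 𝓝 ((0, 0) : ℝ × ℝ), z (al q.1, be q.2) = ga (tau q)

section
variable {W : Set ((ℝ × ℝ) × (ℝ × ℝ))} {z : (ℝ × ℝ) × (ℝ × ℝ) → ℝ × ℝ}
  {p : (ℝ × ℝ) × (ℝ × ℝ)} {G G' : (ℝ × ℝ) →L[ℝ] (ℝ × ℝ) →L[ℝ] ℝ × ℝ}

lemma Through.cond (hW : IsOpen W) (sz : ContDiffOn ℝ ∞ z W) (hp : p ∈ W)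
    {al be ga : ℝ → ℝ × ℝ} {tau : ℝ × ℝ → ℝ} (H : Through z p G G' al be ga tau) :
    ∃ l m r s : ℝ, fderiv ℝ z p (0, deriv be 0) = l • deriv ga 0 ∧
    fderiv ℝ z p (deriv al 0, 0) = m • deriv ga 0 ∧
    fderiv ℝ (fderiv ℝ z) p (0, deriv be 0) (0, deriv be 0) +
      G' (fderiv ℝ z p (0, deriv be 0)) (fderiv ℝ z p (0, deriv be 0)) -
      fderiv ℝ z p (0, G (deriv be 0) (deriv be 0)) = r • deriv ga 0 ∧
    fderiv ℝ (fderiv ℝ z) p (deriv al 0, 0) (0, deriv be 0) +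
      G' (fderiv ℝ z p (deriv al 0, 0)) (fderiv ℝ z p (0, deriv be 0)) =
      s • deriv ga 0 := by
  have h2 : (2 : WithTop ℕ∞) ≤ ∞ := WithTop.coe_le_coe.mpr le_top
  exact geodesic_conditions hW sz (x0 := p.1) (y0 := p.2) hp (H.hal.of_le h2) (H.hbe.of_le h2)
    (H.hga.of_le h2) (H.htau.of_le h2) H.al0 H.be0 H.tau0 H.ev H.be2 H.ga2

/-- rank zero or two in `y` -/
theorem rank_y (hW : IsOpen W) (sz : ContDiffOn ℝ ∞ z W) (hp : p ∈ W)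
    (al be ga : Fin 3 → ℝ → ℝ × ℝ) (tau : Fin 3 → ℝ × ℝ → ℝ)
    (H : ∀ k, Through z p G G' (al k) (be k) (ga k) (tau k))
    (hb : ∀ i j, i ≠ j → om0 (deriv (be i) 0) (deriv (be j) 0) ≠ 0)
    (hg : ∀ i j, i ≠ j → om0 (deriv (ga i) 0) (deriv (ga j) 0) ≠ 0) :
    (∀ v, fderiv ℝ z p (0, v) = 0) ∨ Function.Injective fun v => fderiv ℝ z p (0, v) := by
  choose l m r s h1 h2 h3 h4 using fun k => (H k).cond hW sz hp
  rcases inj_or_zero om0_alt om0_cr om0_one_ne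
    ((fderiv ℝ z p).comp (ContinuousLinearMap.inr ℝ (ℝ × ℝ) (ℝ × ℝ)))
    (fun k => deriv (be k) 0) (fun k => deriv (ga k) 0) l (fun k => h1 k) hb hg with h | h
  · left
    intro v
    exact congrArg (fun L : (ℝ × ℝ) →L[ℝ] (ℝ × ℝ) => L v) h
  · right
    exact inj_of_om0 (L := (fderiv ℝ z p).comp (ContinuousLinearMap.inr ℝ (ℝ × ℝ) (ℝ × ℝ))) h

/-- rank zero or two in `x` -/
theorem rank_x (hW : IsOpen W) (sz : ContDiffOn ℝ ∞ z W) (hp : p ∈ W)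
    (al be ga : Fin 3 → ℝ → ℝ × ℝ) (tau : Fin 3 → ℝ × ℝ → ℝ)
    (H : ∀ k, Through z p G G' (al k) (be k) (ga k) (tau k))
    (ha : ∀ i j, i ≠ j → om0 (deriv (al i) 0) (deriv (al j) 0) ≠ 0)
    (hg : ∀ i j, i ≠ j → om0 (deriv (ga i) 0) (deriv (ga j) 0) ≠ 0) :
    (∀ v, fderiv ℝ z p (v, 0) = 0) ∨ Function.Injective fun v => fderiv ℝ z p (v, 0) := by
  choose l m r s h1 h2 h3 h4 using fun k => (H k).cond hW sz hp
  rcases inj_or_zero om0_alt om0_cr om0_one_ne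
    ((fderiv ℝ z p).comp (ContinuousLinearMap.inl ℝ (ℝ × ℝ) (ℝ × ℝ)))
    (fun k => deriv (al k) 0) (fun k => deriv (ga k) 0) m (fun k => h2 k) ha hg with h | h
  · left
    intro v
    exact congrArg (fun L : (ℝ × ℝ) →L[ℝ] (ℝ × ℝ) => L v) h
  · right
    exact inj_of_om0 (L := (fderiv ℝ z p).comp (ContinuousLinearMap.inl ℝ (ℝ × ℝ) (ℝ × ℝ))) h

/-- **The two conditions.** -/
theorem cond_AB (hW : IsOpen W) (sz : ContDiffOn ℝ ∞ z W) (hp : p ∈ W)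
    (al be ga : Fin 4 → ℝ → ℝ × ℝ) (tau : Fin 4 → ℝ × ℝ → ℝ)
    (H : ∀ k, Through z p G G' (al k) (be k) (ga k) (tau k))
    (hb : ∀ i j, i ≠ j → om0 (deriv (be i) 0) (deriv (be j) 0) ≠ 0)
    (dA : Function.Injective fun a => fderiv ℝ z p (a, 0))
    (dB : Function.Injective fun v => fderiv ℝ z p (0, v)) :
    (∀ v, ∃ c : ℝ, fderiv ℝ (fderiv ℝ z) p (0, v) (0, v) +
      G' (fderiv ℝ z p (0, v)) (fderiv ℝ z p (0, v)) - fderiv ℝ z p (0, G v v) =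
        c • fderiv ℝ z p (0, v)) ∧
    (∀ a u, fderiv ℝ z p (0, u) = fderiv ℝ z p (a, 0) →
      ∃ c : ℝ, fderiv ℝ (fderiv ℝ z) p (a, 0) (0, u) +
        G' (fderiv ℝ z p (a, 0)) (fderiv ℝ z p (a, 0)) = c • fderiv ℝ z p (a, 0)) := by
  choose l m r s h1 h2 h3 h4 using fun k => (H k).cond hW sz hp
  set A : (ℝ × ℝ) →L[ℝ] (ℝ × ℝ) :=
    (fderiv ℝ z p).comp (ContinuousLinearMap.inl ℝ (ℝ × ℝ) (ℝ × ℝ)) with hA
  set B : (ℝ × ℝ) →L[ℝ] (ℝ × ℝ) :=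
    (fderiv ℝ z p).comp (ContinuousLinearMap.inr ℝ (ℝ × ℝ) (ℝ × ℝ)) with hB
  set D2 := fderiv ℝ (fderiv ℝ z) p with hD2
  let inl := ContinuousLinearMap.inl ℝ (ℝ × ℝ) (ℝ × ℝ)
  let inr := ContinuousLinearMap.inr ℝ (ℝ × ℝ) (ℝ × ℝ)
  let Qa : (ℝ × ℝ) →L[ℝ] (ℝ × ℝ) →L[ℝ] ℝ × ℝ :=
    D2.bilinearComp inr inr + G'.bilinearComp B B - (ContinuousLinearMap.compL ℝ _ _ _ B) ∘L G
  let Mb : (ℝ × ℝ) →L[ℝ] (ℝ × ℝ) →L[ℝ] ℝ × ℝ :=
    D2.bilinearComp inl inr + G'.bilinearComp A B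
  have hQa : ∀ v w, Qa v w = D2 (0, v) (0, w) + G' (fderiv ℝ z p (0, v)) (fderiv ℝ z p (0, w)) -
      fderiv ℝ z p (0, G v w) := fun v w => rfl
  have hMb : ∀ a u, Mb a u = D2 (a, 0) (0, u) +
      G' (fderiv ℝ z p (a, 0)) (fderiv ℝ z p (0, u)) := fun a u => rfl
  have key := condAB om0_alt om0_cr om0_one_ne (by simp) A B (om0_of_inj dA) (om0_of_inj dB) Qa Mb
    (fun k => deriv (be k) 0) (fun k => deriv (al k) 0) (fun k => deriv (ga k) 0) l m r s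
    (fun k => h1 k) (fun k => h2 k) (fun k => by rw [hQa]; exact h3 k)
    (fun k => by rw [hMb]; exact h4 k) hb (fun k => (H k).al1)
  refine ⟨fun v => ?_, fun a u hau => ?_⟩
  · by_cases hv : v = 0
    · refine ⟨0, ?_⟩
      subst hv
      have : (((0:ℝ × ℝ), (0:ℝ × ℝ)) : (ℝ × ℝ) × (ℝ × ℝ)) = 0 := rfl
      simp [this]
    · have hne : fderiv ℝ z p (0, v) ≠ 0 := by
        intro h0
        apply hv
        apply dB
        show fderiv ℝ z p (0, v) = fderiv ℝ z p (0, 0)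
        rw [h0]
        exact (map_zero _).symm
      exact om0_zero (key.1 v) hne
  · by_cases ha : a = 0
    · refine ⟨0, ?_⟩
      subst ha
      have h00 : (((0:ℝ × ℝ), (0:ℝ × ℝ)) : (ℝ × ℝ) × (ℝ × ℝ)) = 0 := rfl
      simp [h00]
    · have hne : fderiv ℝ z p (a, 0) ≠ 0 := by
        intro h0
        apply ha
        apply dA
        show fderiv ℝ z p (a, 0) = fderiv ℝ z p (0, 0)
        rw [h0]
        exact (map_zero _).symm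
      have h5 := key.2 a u hau
      rw [hMb, hau] at h5
      exact om0_zero h5 hne

end

end Pool.Agent.H77.PF
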