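import Pool.Agent.H77.PF.Const

/-!
# From the blocking map to the frame

`z (x, y)` is a point on infinitely many geodesics from `x` to `y`. Conditions `condA` and `condB`
are what remains of this. They imply that the curvature is constant near `y`.
-/

namespace Pool.Agent.H77.PF

open Set
open scoped ContDiff

variable {E : Type*} [NormedAddCommGroup E] [NormedSpace ℝ E]

/-- hypotheses on the blocking map -/
structure ZData (W : Set (E × E)) (UY V : Set E) (om : E →L[ℝ] E →L[ℝ] ℝ) (e1 e2 : E)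
    (Γ Γ' : E → E →L[ℝ] E →L[ℝ] E) (z : E × E → E) : Prop where
  hW : IsOpen W
  hUY : IsOpen UY
  hV : IsOpen V
  alt : ∀ v, om v v = 0
  cr : ∀ u v w, om u v • w = om w v • u + om u w • v
  e12 : om e1 e2 ≠ 0
  sz : ContDiffOn ℝ ∞ z W
  mY : ∀ p ∈ W, p.2 ∈ UY
  mz : ∀ p ∈ W, z p ∈ V
  sΓ : ContDiffOn ℝ ∞ Γ UY
  symΓ : ∀ y ∈ UY, ∀ v w, Γ y v w = Γ y w v
  sΓ' : ContDiffOn ℝ ∞ Γ' V
  symΓ' : ∀ y ∈ V, ∀ v w, Γ' y v w = Γ' y w v
  dA : ∀ p ∈ W, om (fderiv ℝ z p (e1, 0)) (fderiv ℝ z p (e2, 0)) ≠ 0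
  dB : ∀ p ∈ W, om (fderiv ℝ z p (0, e1)) (fderiv ℝ z p (0, e2)) ≠ 0
  condA : ∀ p ∈ W, ∀ v, om (fderiv ℝ (fderiv ℝ z) p (0, v) (0, v) +
    Γ' (z p) (fderiv ℝ z p (0, v)) (fderiv ℝ z p (0, v)) - fderiv ℝ z p (0, Γ p.2 v v))
      (fderiv ℝ z p (0, v)) = 0
  condB : ∀ p ∈ W, ∀ a u, fderiv ℝ z p (0, u) = fderiv ℝ z p (a, 0) →
    om (fderiv ℝ (fderiv ℝ z) p (a, 0) (0, u) +
      Γ' (z p) (fderiv ℝ z p (a, 0)) (fderiv ℝ z p (a, 0))) (fderiv ℝ z p (a, 0)) = 0

lemma anti_of {om : E →L[ℝ] E →L[ℝ] ℝ} (alt : ∀ v, om v v = 0) (v w : E) :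
    om v w = -om w v := by
  have h1 := alt (v + w)
  simp only [map_add, add_apply, alt v, alt w] at h1
  linarith

lemma plucker {om : E →L[ℝ] E →L[ℝ] ℝ} (cr : ∀ u v w, om u v • w = om w v • u + om u w • v)
    (a b u v : E) : om a b * om u v = om u b * om a v + om a u * om b v := by
  have h := congrArg (fun t => om t v) (cr a b u)
  simpa [map_add, map_smul, smul_eq_mul] using h

/-- the determinant of a linear map -/
lemma om_map {om : E →L[ℝ] E →L[ℝ] ℝ} (alt : ∀ v, om v v = 0)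
    (cr : ∀ u v w, om u v • w = om w v • u + om u w • v) (L : E →L[ℝ] E) (e1 e2 u v : E) :
    om e1 e2 ^ 2 * om (L u) (L v) = om e1 e2 * (om (L e1) (L e2) * om u v) := by
  have hu := congrArg L (cr e1 e2 u)
  have hv := congrArg L (cr e1 e2 v)
  simp only [map_smul, map_add] at hu hv
  have h1 : om e1 e2 ^ 2 * om (L u) (L v) = om (om e1 e2 • L u) (om e1 e2 • L v) := by
    simp only [map_smul, smul_apply, smul_eq_mul]; ring
  rw [h1, hu, hv]
  have a1 := anti_of alt (L e2) (L e1)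
  have p := plucker cr e1 e2 u v
  have a2 := anti_of alt e2 v
  simp only [map_add, map_smul, add_apply, smul_apply, smul_eq_mul, alt]
  rw [a1]
  rw [a2] at p
  linear_combination (-om (L e1) (L e2)) * p

lemma om_map_zero {om : E →L[ℝ] E →L[ℝ] ℝ} (alt : ∀ v, om v v = 0)
    (cr : ∀ u v w, om u v • w = om w v • u + om u w • v) (L : E →L[ℝ] E) {e1 e2 : E}
    (he : om e1 e2 ≠ 0) (hL : om (L e1) (L e2) ≠ 0) {u v : E} (h : om (L u) (L v) = 0) :
    om u v = 0 := by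
  have h1 := om_map alt cr L e1 e2 u v
  rw [h, mul_zero] at h1
  have h2 := (mul_eq_zero.mp h1.symm).resolve_left he
  exact (mul_eq_zero.mp h2).resolve_left hL

namespace ZData
variable {W : Set (E × E)} {UY V : Set E} {om : E →L[ℝ] E →L[ℝ] ℝ} {e1 e2 : E}
    {Γ Γ' : E → E →L[ℝ] E →L[ℝ] E} {z : E × E → E} (H : ZData W UY V om e1 e2 Γ Γ' z)
include H

/-- the slice -/
lemma slice_open (x0 : E) : IsOpen {y | (x0, y) ∈ W} :=
  H.hW.preimage (by fun_prop)

lemma sD : ContDiffOn ℝ ∞ (fderiv ℝ z) W := smooth_fderiv H.hW H.sz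

lemma sD2 : ContDiffOn ℝ ∞ (fderiv ℝ (fderiv ℝ z)) W := smooth_fderiv H.hW H.sD

lemma hasD {p : E × E} (hp : p ∈ W) : HasFDerivAt z (fderiv ℝ z p) p :=
  (diff_at H.hW H.sz hp).hasFDerivAt

lemma hasD2 {p : E × E} (hp : p ∈ W) :
    HasFDerivAt (fderiv ℝ z) (fderiv ℝ (fderiv ℝ z) p) p :=
  (diff_at H.hW H.sD hp).hasFDerivAt

lemma hasD3 {p : E × E} (hp : p ∈ W) :
    HasFDerivAt (fderiv ℝ (fderiv ℝ z)) (fderiv ℝ (fderiv ℝ (fderiv ℝ z)) p) p :=
  (diff_at H.hW H.sD2 hp).hasFDerivAt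

lemma sym2 {p : E × E} (hp : p ∈ W) (h k : E × E) :
    fderiv ℝ (fderiv ℝ z) p h k = fderiv ℝ (fderiv ℝ z) p k h :=
  ((smooth_at H.hW H.sz hp).isSymmSndFDerivAt
    (by simp; exact WithTop.coe_le_coe.mpr le_top)).eq h k

lemma sym3 {p : E × E} (hp : p ∈ W) (h k l : E × E) :
    fderiv ℝ (fderiv ℝ (fderiv ℝ z)) p h k l = fderiv ℝ (fderiv ℝ (fderiv ℝ z)) p k h l := by
  have h1 := ((smooth_at H.hW H.sD hp).isSymmSndFDerivAt
    (by simp; exact WithTop.coe_le_coe.mpr le_top)).eq h k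
  rw [h1]

lemma sym3' {p : E × E} (hp : p ∈ W) (h k l : E × E) :
    fderiv ℝ (fderiv ℝ (fderiv ℝ z)) p h k l = fderiv ℝ (fderiv ℝ (fderiv ℝ z)) p h l k := by
  have h1 := (H.hasD3 hp).clm_apply (hasFDerivAt_const k p)
  have h2 := h1.clm_apply (hasFDerivAt_const l p)
  have h3 := (H.hasD3 hp).clm_apply (hasFDerivAt_const l p)
  have h4 := h3.clm_apply (hasFDerivAt_const k p)
  have h5 : (fun q => fderiv ℝ (fderiv ℝ z) q k l) =ᶠ[nhds p]
      (fun q => fderiv ℝ (fderiv ℝ z) q l k) := by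
    filter_upwards [H.hW.mem_nhds hp] with q hq
    exact H.sym2 hq k l
  have h6 := h2.congr_of_eventuallyEq h5.symm
  have h7 := congrArg (fun L => L h) (h6.unique h4)
  simpa using h7

section field
variable {x0 a0 : E} {X : E → E} (hXs : ContDiffOn ℝ ∞ X {y | (x0, y) ∈ W})
  (hX : ∀ y, (x0, y) ∈ W → fderiv ℝ z (x0, y) (0, X y) = fderiv ℝ z (x0, y) (a0, 0))
include hXs hX

lemma kill {y : E} (hy : (x0, y) ∈ W) : fderiv ℝ z (x0, y) (a0, -X y) = 0 := by
  have h : ((a0, -X y) : E × E) = (a0, 0) - (0, X y) := by simp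
  rw [h, map_sub, hX y hy, sub_self]

/-- first derivative of the defining equation -/
lemma first {y : E} (hy : (x0, y) ∈ W) (w : E) :
    fderiv ℝ (fderiv ℝ z) (x0, y) (0, w) (a0, -X y) = fderiv ℝ z (x0, y) (0, fderiv ℝ X y w) := by
  have hUo := H.slice_open x0
  have dX := (diff_at hUo hXs (y := y) hy).hasFDerivAt
  have hi : HasFDerivAt (fun y : E => (x0, y)) (ContinuousLinearMap.inr ℝ E E) y :=
    hasFDerivAt_prodMk_right x0 y
  have hD : HasFDerivAt (fun y => fderiv ℝ z (x0, y)) _ y := (H.hasD2 hy).comp y hi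
  have hh : HasFDerivAt (fun y => (a0, -X y)) _ y := (hasFDerivAt_const a0 y).prodMk dX.neg
  have h := hD.clm_apply hh
  have h0 : HasFDerivAt (fun y => fderiv ℝ z (x0, y) (a0, -X y)) (0 : E →L[ℝ] E) y := by
    apply (hasFDerivAt_const (0:E) y).congr_of_eventuallyEq
    filter_upwards [hUo.mem_nhds hy] with q hq
    exact H.kill hXs hX hq
  have h1 := congrArg (fun L => L w) (h.unique h0)
  simp only [add_apply, ContinuousLinearMap.comp_apply, ContinuousLinearMap.flip_apply,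
    ContinuousLinearMap.prod_apply, ContinuousLinearMap.inr_apply,
    zero_apply, neg_apply] at h1
  have h2 : ((0, -(fderiv ℝ X y w)) : E × E) = -(0, fderiv ℝ X y w) := by simp
  rw [h2, map_neg] at h1
  exact (neg_add_eq_zero.mp h1).symm

/-- second derivative of the defining equation -/
lemma second {y : E} (hy : (x0, y) ∈ W) (v : E) :
    fderiv ℝ (fderiv ℝ (fderiv ℝ z)) (x0, y) (0, v) (0, v) (a0, -X y) =
      (2:ℝ) • fderiv ℝ (fderiv ℝ z) (x0, y) (0, v) (0, fderiv ℝ X y v) +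
        fderiv ℝ z (x0, y) (0, fderiv ℝ (fderiv ℝ X) y v v) := by
  have hUo := H.slice_open x0
  have dX := (diff_at hUo hXs (y := y) hy).hasFDerivAt
  have dX2 := (diff_at hUo (smooth_fderiv hUo hXs) (y := y) hy).hasFDerivAt
  have hi : HasFDerivAt (fun y : E => (x0, y)) (ContinuousLinearMap.inr ℝ E E) y :=
    hasFDerivAt_prodMk_right x0 y
  have hD : HasFDerivAt (fun y => fderiv ℝ z (x0, y)) _ y := (H.hasD2 hy).comp y hi
  have hD2 : HasFDerivAt (fun y => fderiv ℝ (fderiv ℝ z) (x0, y))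
      ((fderiv ℝ (fderiv ℝ (fderiv ℝ z)) (x0, y)).comp (ContinuousLinearMap.inr ℝ E E)) y :=
    HasFDerivAt.comp (g := fderiv ℝ (fderiv ℝ z)) y (H.hasD3 hy) hi
  have hh : HasFDerivAt (fun y => (a0, -X y)) _ y := (hasFDerivAt_const a0 y).prodMk dX.neg
  have hk : HasFDerivAt (fun y => ((0:E), fderiv ℝ X y v)) _ y :=
    (hasFDerivAt_const (0:E) y).prodMk (dX2.clm_apply (hasFDerivAt_const v y))
  have h := ((hD2.clm_apply (hasFDerivAt_const ((0:E), v) y)).clm_apply hh).sub (hD.clm_apply hk)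
  have h0 : HasFDerivAt (fun y => fderiv ℝ (fderiv ℝ z) (x0, y) (0, v) (a0, -X y) -
      fderiv ℝ z (x0, y) (0, fderiv ℝ X y v)) (0 : E →L[ℝ] E) y := by
    apply (hasFDerivAt_const (0:E) y).congr_of_eventuallyEq
    filter_upwards [hUo.mem_nhds hy] with q hq
    exact sub_eq_zero.mpr (H.first hXs hX hq v)
  have h1 := congrArg (fun L => L v) (h.unique h0)
  simp only [add_apply, sub_apply, ContinuousLinearMap.comp_apply, ContinuousLinearMap.flip_apply,
    ContinuousLinearMap.prod_apply, ContinuousLinearMap.inr_apply,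
    zero_apply, neg_apply, map_zero, zero_add] at h1
  have h2 : ((0, -(fderiv ℝ X y v)) : E × E) = -(0, fderiv ℝ X y v) := by simp
  rw [h2, map_neg] at h1
  rw [two_smul]
  have h3 := sub_eq_zero.mp h1
  rw [neg_add_eq_iff_eq_add] at h3
  rw [h3]
  abel

/-- integral curves are geodesics -/
lemma geoZ {y : E} (hy : (x0, y) ∈ W) : om (nab Γ X X y) (X y) = 0 := by
  have hB := H.dB _ hy
  have hx := hX y hy
  have h1 := H.first hXs hX hy (X y)
  have hA := H.condA _ hy (X y)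
  have hBc := H.condB _ hy a0 (X y) hx
  have h2 : ((a0, -X y) : E × E) = (a0, 0) - (0, X y) := by simp
  rw [h2, map_sub, H.sym2 hy (0, X y) (a0, 0)] at h1
  apply om_map_zero H.alt H.cr ((fderiv ℝ z (x0, y)).comp (ContinuousLinearMap.inr ℝ E E)) H.e12
  · simpa using hB
  · simp only [ContinuousLinearMap.comp_apply, ContinuousLinearMap.inr_apply]
    have h3 : fderiv ℝ z (x0, y) (0, nab Γ X X y) =
        (fderiv ℝ (fderiv ℝ z) (x0, y) (a0, 0) (0, X y) +
          Γ' (z (x0, y)) (fderiv ℝ z (x0, y) (a0, 0)) (fderiv ℝ z (x0, y) (a0, 0))) -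
        (fderiv ℝ (fderiv ℝ z) (x0, y) (0, X y) (0, X y) +
          Γ' (z (x0, y)) (fderiv ℝ z (x0, y) (0, X y)) (fderiv ℝ z (x0, y) (0, X y)) -
          fderiv ℝ z (x0, y) (0, Γ y (X y) (X y))) := by
      have h4 : ((0, nab Γ X X y) : E × E) = (0, fderiv ℝ X y (X y)) + (0, Γ y (X y) (X y)) := by
        simp [nab, Dv]
      rw [h4, map_add, ← h1, hx]
      abel
    rw [h3, hx, map_sub, sub_apply]
    rw [hx] at hA
    rw [hBc]
    simp only [map_sub, map_add, sub_apply, add_apply] at hA ⊢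
    linarith

omit hXs hX in
/-- polarisation of `condA` -/
lemma polar {p : E × E} (hp : p ∈ W) (u v : E) :
    2 * om (fderiv ℝ (fderiv ℝ z) p (0, v) (0, u) +
      Γ' (z p) (fderiv ℝ z p (0, u)) (fderiv ℝ z p (0, v)) - fderiv ℝ z p (0, Γ p.2 u v))
        (fderiv ℝ z p (0, v)) +
    om (fderiv ℝ (fderiv ℝ z) p (0, v) (0, v) +
      Γ' (z p) (fderiv ℝ z p (0, v)) (fderiv ℝ z p (0, v)) - fderiv ℝ z p (0, Γ p.2 v v))
        (fderiv ℝ z p (0, u)) = 0 := by
  have a1 := H.condA p hp (v + u)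
  have a2 := H.condA p hp (v - u)
  have a3 := H.condA p hp u
  have s1 := H.sym2 hp (0, u) (0, v)
  have s2 := H.symΓ' _ (H.mz p hp) (fderiv ℝ z p (0, v)) (fderiv ℝ z p (0, u))
  have s3 := H.symΓ _ (H.mY p hp) v u
  have e1 : ((0, v + u) : E × E) = (0, v) + (0, u) := by simp
  have e2 : ((0, v - u) : E × E) = (0, v) - (0, u) := by simp
  have e3 : ((0, Γ p.2 (v + u) (v + u)) : E × E) = (0, Γ p.2 v v) + (0, Γ p.2 u v) +
      ((0, Γ p.2 u v) + (0, Γ p.2 u u)) := by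
    simp only [map_add, add_apply, s3, Prod.mk_add_mk, add_zero]
  have e4 : ((0, Γ p.2 (v - u) (v - u)) : E × E) = (0, Γ p.2 v v) - (0, Γ p.2 u v) -
      ((0, Γ p.2 u v) - (0, Γ p.2 u u)) := by
    simp only [map_sub, sub_apply, s3, Prod.mk_sub_mk, sub_zero]
  rw [e3, e1] at a1
  rw [e4, e2] at a2
  simp only [map_add, map_sub, add_apply, sub_apply, s1, s2] at a1 a2 a3 ⊢
  linarith

/-- the field is projective -/
lemma projZ {y : E} (hy : (x0, y) ∈ W) (v : E) : om (LieΓ Γ X y v) v = 0 := by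
  have hB := H.dB _ hy
  apply om_map_zero H.alt H.cr ((fderiv ℝ z (x0, y)).comp (ContinuousLinearMap.inr ℝ E E)) H.e12
  · simpa using hB
  · simp only [ContinuousLinearMap.comp_apply, ContinuousLinearMap.inr_apply]
    have hyU : y ∈ UY := H.mY _ hy
    have hzV : z (x0, y) ∈ V := H.mz _ hy
    have hD := H.hasD2 hy
    have hD3 := H.hasD3 hy
    have c0v : HasFDerivAt (fun _ : E × E => ((0:E), v)) (0 : E × E →L[ℝ] E × E) (x0, y) :=
      hasFDerivAt_const _ _
    have cv : HasFDerivAt (fun _ : E × E => v) (0 : E × E →L[ℝ] E) (x0, y) := hasFDerivAt_const _ _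
    have dΓ' := (diff_at H.hV H.sΓ' hzV).hasFDerivAt
    have dΓ := (diff_at H.hUY H.sΓ hyU).hasFDerivAt
    have A1 := hD.clm_apply c0v
    have A2 := (hD3.clm_apply c0v).clm_apply c0v
    have A3 : HasFDerivAt (fun p => Γ' (z p)) ((fderiv ℝ Γ' (z (x0, y))).comp
      (fderiv ℝ z (x0, y))) (x0, y) := HasFDerivAt.comp (g := Γ') (x0, y) dΓ' (H.hasD hy)
    have A4 := (A3.clm_apply A1).clm_apply A1
    have A5 : HasFDerivAt (fun p : E × E => Γ p.2) ((fderiv ℝ Γ y).comp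
      (ContinuousLinearMap.snd ℝ E E)) (x0, y) :=
      HasFDerivAt.comp (g := Γ) (f := Prod.snd) (x0, y) dΓ hasFDerivAt_snd
    have A6 := (A5.clm_apply cv).clm_apply cv
    have A7 := (hasFDerivAt_const (0:E) ((x0, y) : E × E)).prodMk A6
    have A8 := hD.clm_apply A7
    have P := (A2.add A4).sub A8
    have Q := ((om.hasFDerivAt.comp _ P).clm_apply A1)
    have h0 : HasFDerivAt (fun p => om (fderiv ℝ (fderiv ℝ z) p (0, v) (0, v) +
        Γ' (z p) (fderiv ℝ z p (0, v)) (fderiv ℝ z p (0, v)) - fderiv ℝ z p (0, Γ p.2 v v))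
        (fderiv ℝ z p (0, v))) (0 : E × E →L[ℝ] ℝ) (x0, y) := by
      apply (hasFDerivAt_const (0:ℝ) ((x0, y) : E × E)).congr_of_eventuallyEq
      filter_upwards [H.hW.mem_nhds hy] with p hp
      exact H.condA p hp v
    have h1 := congrArg (fun L => L (a0, -X y)) (Q.unique h0)
    have hk := H.kill hXs hX hy
    have f1 := H.first hXs hX hy v
    have f2 := H.first hXs hX hy (Γ y v v)
    have g2 := H.second hXs hX hy v
    have s1 := H.sym2 hy (a0, -X y) (0, v)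
    have s2 := H.sym2 hy (a0, -X y) (0, Γ y v v)
    have s3 : fderiv ℝ (fderiv ℝ (fderiv ℝ z)) (x0, y) (a0, -X y) (0, v) (0, v) =
        fderiv ℝ (fderiv ℝ (fderiv ℝ z)) (x0, y) (0, v) (0, v) (a0, -X y) := by
      rw [H.sym3 hy, H.sym3' hy]
    rw [f1] at s1
    rw [f2] at s2
    rw [g2] at s3
    have hpol := H.polar hy (fderiv ℝ X y v) v
    have sΓ' := H.symΓ' _ hzV (fderiv ℝ z (x0, y) (0, v)) (fderiv ℝ z (x0, y) (0, fderiv ℝ X y v))
    simp only [add_apply, sub_apply, ContinuousLinearMap.comp_apply,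
      ContinuousLinearMap.flip_apply, ContinuousLinearMap.prod_apply,
      ContinuousLinearMap.coe_snd', Function.comp_apply, Pi.add_apply, Pi.sub_apply,
      zero_apply, map_zero, zero_add, add_zero, hk, s1, s2, s3, map_neg, neg_apply] at h1
    have hneg : ((0, -(fderiv ℝ Γ y (X y) v v)) : E × E) = -(0, fderiv ℝ Γ y (X y) v v) := by simp
    have hL : ((0, LieΓ Γ X y v) : E × E) = (0, fderiv ℝ Γ y (X y) v v) -
        (0, fderiv ℝ X y (Γ y v v)) + (2:ℝ) • (0, Γ y (fderiv ℝ X y v) v) +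
        (0, fderiv ℝ (fderiv ℝ X) y v v) := by
      simp [LieΓ]
    rw [hL]
    rw [hneg] at h1
    simp only [map_add, map_sub, map_neg, map_smul, add_apply, sub_apply, neg_apply, smul_apply,
      smul_eq_mul, sΓ'] at h1 hpol ⊢
    linarith

end field

end ZData

end Pool.Agent.H77.PF
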